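import Pool.Agent.H578R2.Med.PP

/-!
# NP is contained in PP; the polynomial hierarchy
-/

namespace Pool.Agent.NPC.Med

theorem card_take {k K : ℕ} (h : k ≤ K) (T : List Bool → Prop) :
    Nat.card {w : List Bool // w.length = K ∧ T (w.take k)} =
      2 ^ (K - k) * Nat.card {w : List Bool // w.length = k ∧ T w} := by
  rw [← card_length_eq (K - k), ← Nat.card_prod]
  refine Nat.card_congr ⟨fun w => (⟨w.1.drop k, by simp [w.2.1]⟩,
      ⟨w.1.take k, by simp [w.2.1]; omega, w.2.2⟩),
    fun s => ⟨s.2.1 ++ s.1.1, by simp [s.1.2, s.2.2.1]; omega, ?_⟩, fun w => ?_, fun s => ?_⟩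
  · rw [List.take_left' s.2.2.1]
    exact s.2.2.2
  · apply Subtype.ext
    simp
  · apply Prod.ext
    · apply Subtype.ext
      simp only
      rw [List.drop_left' s.2.2.1]
    · apply Subtype.ext
      simp only
      rw [List.take_left' s.2.2.1]

theorem InPPc.preimage {L : Set (List Bool)} (hL : InPPc L) {g : List Bool → List Bool}
    (hg : Poly g) : InPPc {x | g x ∈ L} := by
  obtain ⟨V, p, hV, hL⟩ := hL
  obtain ⟨c, hc⟩ := hg.sz_le
  refine ⟨fun y => [decide (V (pairBits (g (unpair y).1)
      ((unpair y).2.take (p.eval (g (unpair y).1).length))) = [true])],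
    p.comp (c.comp (Polynomial.C 4 * Polynomial.X + Polynomial.C 1)), ?_, fun x => ?_⟩
  · have h1 : Poly (fun y : List Bool => g (unpair y).1) := hg.comp (Poly.fst poly_unpair)
    have h2 : Poly (fun y : List Bool => (unpair y).2.take (p.eval (g (unpair y).1).length)) :=
      poly_take (Poly.snd poly_unpair) (uPoly_evalLen h1 p).toPoly
    exact polyTime_of_poly (Poly.decide_eq ((poly_of_polyTime hV).comp (poly_pairBits h1 h2))
      (Poly.const [true]))
  · have hlen : (g x).length ≤ c.eval (4 * x.length + 1) :=
      (length_lt_sz _).le.trans ((hc x).trans (eval_mono c (sz_listBool_le x)))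
    have hk := eval_mono p hlen
    simp only [unpair_pairBits, List.cons.injEq, and_true, decide_eq_true_eq]
    simp only [Polynomial.eval_comp, Polynomial.eval_add, Polynomial.eval_mul, Polynomial.eval_C,
      Polynomial.eval_X]
    rw [card_take hk (fun w => V (pairBits (g x) w) = [true]), Set.mem_ofPred_eq, hL (g x)]
    obtain ⟨d, hd⟩ := Nat.exists_eq_add_of_le hk
    rw [hd, Nat.add_sub_cancel_left, pow_add]
    have h2 : 0 < 2 ^ d := by positivity
    constructor
    · intro h
      have := Nat.mul_lt_mul_of_pos_right h h2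
      linarith
    · intro h
      by_contra h3
      have h3 := not_lt.1 h3
      have := Nat.mul_le_mul_right (2 ^ d) h3
      linarith

theorem inNPP_raw {L : Set (List Bool)} (h : InNP L) : InNPP (fun x : List Bool => x ∈ L) := by
  obtain ⟨V, p, hV, hL⟩ := h
  have hR : Poly (fun z : List Bool × List Bool =>
      decide (z.2.length ≤ p.eval z.1.length) && decide (V (pairBits z.1 z.2) = [true])) := by
    have h1 : Poly (fun z : List Bool × List Bool => p.eval z.1.length) :=
      (uPoly_evalLen (x := fun z : List Bool × List Bool => z.1) (by fun_prop) p).toPoly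
    have h2 : Poly (fun z : List Bool × List Bool => V (pairBits z.1 z.2)) :=
      (poly_of_polyTime hV).comp (poly_pairBits (by fun_prop) (by fun_prop))
    exact Poly.and (Poly.decide_le (by fun_prop) h1) (Poly.decide_eq h2 (Poly.const [true]))
  refine of_cert (β := List Bool) hR (Polynomial.C 4 * p + Polynomial.C 1) (fun x w hw => ?_)
    fun x hx => ?_
  · rw [Bool.and_eq_true, decide_eq_true_eq, decide_eq_true_eq] at hw
    exact (hL x).2 ⟨w, hw⟩
  · obtain ⟨w, hw⟩ := (hL x).1 hx
    refine ⟨w, ?_, by simp [hw.1, hw.2]⟩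
    have h1 := hw.1
    have h2 := sz_listBool_le w
    have h3 : p.eval x.length ≤ p.eval (sz x) := eval_mono p (length_lt_sz x).le
    simp only [Polynomial.eval_add, Polynomial.eval_mul, Polynomial.eval_C]
    omega

/-- NP is contained in PP. -/
theorem np_sub_pp {L : Set (List Bool)} (hL : InNP L) : InPPc L := by
  obtain ⟨V, p, hV, hL⟩ := hL
  let R : List Bool → List Bool → Bool := fun x w =>
    decide (w.length ≤ p.eval x.length) && decide (V (pairBits x w) = [true])
  have hR : Poly (fun z : List Bool × List Bool => R z.1 z.2) := by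
    have h1 : Poly (fun z : List Bool × List Bool => p.eval z.1.length) :=
      (uPoly_evalLen (x := fun z : List Bool × List Bool => z.1) (by fun_prop) p).toPoly
    have h2 : Poly (fun z : List Bool × List Bool => V (pairBits z.1 z.2)) :=
      (poly_of_polyTime hV).comp (poly_pairBits (by fun_prop) (by fun_prop))
    exact Poly.and (Poly.decide_le (by fun_prop) h1) (Poly.decide_eq h2 (Poly.const [true]))
  have hRiff : ∀ x w, R x w = true ↔ w.length ≤ p.eval x.length ∧ V (pairBits x w) = [true] := by
    intro x w
    simp only [R, Bool.and_eq_true, decide_eq_true_eq]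
  have hS := Cnt.sharpP_typed R hR (Polynomial.C 4 * p + Polynomial.C 1) (fun x w h => by
    have h1 := ((hRiff x w).1 h).1
    have h2 := sz_listBool_le w
    have h3 : p.eval x.length ≤ p.eval (sz x) := eval_mono p (length_lt_sz x).le
    simp only [Polynomial.eval_add, Polynomial.eval_mul, Polynomial.eval_C]
    omega)
  have h1 := (gt_inPP hS).preimage (g := fun x : List Bool => bits (bits x, 0))
    (poly_bits.comp (Poly.pair poly_bits (Poly.const 0)))
  refine cast (congrArg InPPc ?_) h1
  ext x
  rw [Set.mem_ofPred_eq, bits_mem_lang, hL x]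
  simp only [Cnt.strFn_bits]
  have hfin : Finite {w : List Bool // R x w = true} := by
    have h2 : ({w : List Bool | R x w = true} : Set (List Bool)).Finite :=
      (List.finite_length_le Bool (p.eval x.length)).subset fun w hw => ((hRiff x w).1 hw).1
    exact h2
  rw [Nat.card_pos_iff, and_iff_left hfin]
  constructor
  · rintro ⟨w⟩
    exact ⟨w.1, (hRiff x w.1).1 w.2⟩
  · rintro ⟨w, hw⟩
    exact ⟨⟨w, (hRiff x w).2 hw⟩⟩

/-- The levels of the polynomial hierarchy: level `0` is P, and level `k + 1` consists of the
languages `{x | ∃ w, |w| ≤ p(|x|) ∧ (x, w) ∉ A}` for `A` in level `k` and a polynomial `p`. -/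
def Sig : ℕ → Set (List Bool) → Prop
  | 0, L => ∃ V : List Bool → List Bool, PolyTime V ∧ ∀ x, x ∈ L ↔ V x = [true]
  | k + 1, L => ∃ (A : Set (List Bool)) (p : Polynomial ℕ), Sig k A ∧ ∀ x, x ∈ L ↔
      ∃ w : List Bool, w.length ≤ p.eval x.length ∧ pairBits x w ∉ A

/-- The polynomial hierarchy. -/
def InPH (L : Set (List Bool)) : Prop := ∃ k, Sig k L

theorem ph_collapse (h : ∀ L, InNP L → InNP Lᶜ) {L : Set (List Bool)} (hL : InPH L) :
    InNP L := by
  obtain ⟨k, hk⟩ := hL
  induction k generalizing L with
  | zero =>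
    obtain ⟨V, hV, hL⟩ := hk
    apply inNP_raw
    refine inNPP_of_test (d := fun x => decide (V x = [true])) ?_ fun x => ?_
    · exact Poly.decide_eq (poly_of_polyTime hV) (Poly.const [true])
    · rw [hL x, decide_eq_true_eq]
  | succ k ih =>
    obtain ⟨A, p, hA, hL⟩ := hk
    have h1 := inNPP_raw (h A (ih hA))
    apply inNP_raw
    have h2 : InNPP (fun x : List Bool => ∃ w : List Bool,
        decide (w.length ≤ p.eval x.length) = true ∧ pairBits x w ∈ Aᶜ) := by
      refine InNPP.exists (Q := fun z : List Bool × List Bool =>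
        decide (z.2.length ≤ p.eval z.1.length) = true ∧ pairBits z.1 z.2 ∈ Aᶜ)
        (InNPP.and (inNPP_of_test ?_ fun y => Iff.rfl) ?_) (Polynomial.C 4 * p + Polynomial.C 1) ?_
      · exact Poly.decide_le (by fun_prop)
          (uPoly_evalLen (x := fun z : List Bool × List Bool => z.1) (by fun_prop) p).toPoly
      · exact InNPP.comp (f := fun z : List Bool × List Bool => pairBits z.1 z.2) h1
          (poly_pairBits (by fun_prop) (by fun_prop))
      · rintro x w ⟨hw, hA⟩
        refine ⟨w, ?_, hw, hA⟩
        simp only [decide_eq_true_eq] at hw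
        have h2 := sz_listBool_le w
        have h3 : p.eval x.length ≤ p.eval (sz x) := eval_mono p (length_lt_sz x).le
        simp only [Polynomial.eval_add, Polynomial.eval_mul, Polynomial.eval_C]
        omega
    refine cast (congrArg InNPP ?_) h2
    funext x
    rw [hL x]
    simp

end Pool.Agent.NPC.Med
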