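import Pool.Agent.H578R2.Med.NPClos

/-!
# The class PP, and the graphs of #P functions
-/

namespace Pool.Agent.NPC.Med

/-- The class `PP`: `x ∈ L` iff more than half of the strings `w` of length `p(|x|)` are accepted
together with `x` by a polynomial-time verifier. -/
def InPPc (L : Set (List Bool)) : Prop :=
  ∃ (V : List Bool → List Bool) (p : Polynomial ℕ), PolyTime V ∧ ∀ x, x ∈ L ↔
    2 ^ p.eval x.length < 2 * Nat.card {w : List Bool // w.length = p.eval x.length ∧
      V (pairBits x w) = [true]}

/-! ### raw strings -/

theorem inNP_raw {L : Set (List Bool)} (h : InNPP (fun x : List Bool => x ∈ L)) : InNP L := by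
  obtain ⟨R, p, h1, h2, h3⟩ := InNPP.cert h
  refine ⟨fun y => [R (unpair y)], p.comp (Polynomial.C 4 * Polynomial.X + Polynomial.C 1),
    polyTime_of_poly (h1.comp poly_unpair), fun x => ?_⟩
  simp only [unpair_pairBits, List.cons.injEq, and_true]
  constructor
  · intro hx
    obtain ⟨w, hw, hR⟩ := h3 x hx
    refine ⟨w, ?_, hR⟩
    have h4 : w.length < sz w := length_lt_sz w
    have h5 := eval_mono p (sz_listBool_le x)
    simp only [Polynomial.eval_comp, Polynomial.eval_add, Polynomial.eval_mul, Polynomial.eval_C,
      Polynomial.eval_X]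
    omega
  · rintro ⟨w, _, hR⟩
    exact h2 x w hR

theorem two_pow_bits (n : ℕ) : (2 ^ n).bits = List.replicate n false ++ [true] := by
  induction n with
  | zero => simp
  | succ n ih =>
    have h : 2 ^ (n + 1) = Nat.bit false (2 ^ n) := by simp [Nat.bit]; ring
    rw [h, Nat.bits_append_bit _ _ (fun h0 => by simp at h0), ih]
    rfl

theorem poly_two_pow {α : Type} [TEnc α] {n : α → ℕ} (hn : UPoly n) :
    Poly (fun a => 2 ^ n a) := by
  refine Poly.of_natBits ?_
  have : (fun a => (2 ^ n a).bits) = fun a => List.replicate (n a) false ++ [true] := by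
    funext a
    exact two_pow_bits _
  rw [this]
  exact Poly.append (Cnt.UPoly.replicate hn (Poly.const false)) (Poly.const [true])

theorem uPoly_evalLen {α : Type} [TEnc α] {x : α → List Bool} (hx : Poly x) (p : Polynomial ℕ) :
    UPoly (fun a => p.eval (x a).length) := UPoly.eval (UPoly.length hx) p

theorem take_eq_aux {α : Type} (k : ℕ) : ∀ (l : List α) (j : ℕ),
    ((l.zipIdx j).filter fun q => decide (q.2 < j + k)).map Prod.fst = l.take k
  | [], j => by simp
  | a :: l, j => by
    rw [List.zipIdx_cons]
    cases k with
    | zero =>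
      rw [List.take_zero, List.map_eq_nil_iff, List.filter_eq_nil_iff]
      rintro ⟨b, i⟩ hb
      rw [← List.zipIdx_cons, List.mem_zipIdx_iff_le_and_getElem?_sub] at hb
      simp only [decide_eq_true_eq]
      omega
    | succ k =>
      have ih := take_eq_aux k l (j + 1)
      rw [List.take_succ_cons, ← ih, List.filter_cons_of_pos (by simp), List.map_cons,
        show j + (k + 1) = j + 1 + k by omega]

theorem drop_eq_aux {α : Type} (k : ℕ) : ∀ (l : List α) (j : ℕ),
    ((l.zipIdx j).filter fun q => decide (j + k ≤ q.2)).map Prod.fst = l.drop k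
  | [], j => by simp
  | a :: l, j => by
    rw [List.zipIdx_cons]
    cases k with
    | zero =>
      rw [List.drop_zero, List.filter_eq_self.2]
      · rw [← List.zipIdx_cons]
        exact List.zipIdx_map_fst _ _
      · rintro ⟨b, i⟩ hb
        rw [← List.zipIdx_cons, List.mem_zipIdx_iff_le_and_getElem?_sub] at hb
        simp only [decide_eq_true_eq]
        omega
    | succ k =>
      have ih := drop_eq_aux k l (j + 1)
      rw [List.drop_succ_cons, ← ih, List.filter_cons_of_neg (by simp),
        show j + (k + 1) = j + 1 + k by omega]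

theorem poly_take {α β : Type} [TEnc α] [TEnc β] {l : α → List β} {k : α → ℕ} (hl : Poly l)
    (hk : Poly k) : Poly (fun a => (l a).take (k a)) := by
  have h : Poly (fun a => (((l a).zipIdx.filter fun q => decide (q.2 < k a)).map Prod.fst)) := by
    fun_prop
  refine h.congr fun a => ?_
  have := take_eq_aux (k a) (l a) 0
  simpa using this

theorem poly_drop {α β : Type} [TEnc α] [TEnc β] {l : α → List β} {k : α → ℕ} (hl : Poly l)
    (hk : Poly k) : Poly (fun a => (l a).drop (k a)) := by
  have h : Poly (fun a => (((l a).zipIdx.filter fun q => decide (k a ≤ q.2)).map Prod.fst)) := by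
    fun_prop
  refine h.congr fun a => ?_
  have := drop_eq_aux (k a) (l a) 0
  simpa using this

/-! ### Counting strings -/

theorem card_length_eq (k : ℕ) : Nat.card {w : List Bool // w.length = k} = 2 ^ k := by
  have : Nat.card (List.Vector Bool k) = 2 ^ k := by
    rw [Nat.card_eq_fintype_card]
    simp
  exact this

instance finite_length (k : ℕ) : Finite {w : List Bool // w.length = k} :=
  inferInstanceAs (Finite (List.Vector Bool k))

instance finite_length_and (k : ℕ) (T : List Bool → Prop) :
    Finite {w : List Bool // w.length = k ∧ T w} :=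
  Finite.of_injective (fun w => (⟨w.1, w.2.1⟩ : {w : List Bool // w.length = k})) (by
    intro a b h
    simp only [Subtype.mk.injEq] at h
    exact Subtype.ext h)

theorem card_split (k : ℕ) (T : List Bool → Prop) :
    Nat.card {w : List Bool // w.length = k + 1 ∧ T w} =
      Nat.card {w : List Bool // w.length = k ∧ T (true :: w)} +
      Nat.card {w : List Bool // w.length = k ∧ T (false :: w)} := by
  rw [← Nat.card_sum]
  refine (Nat.card_congr (Equiv.ofBijective (fun s : {w : List Bool // w.length = k ∧
      T (true :: w)} ⊕ {w : List Bool // w.length = k ∧ T (false :: w)} =>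
    (Sum.elim (fun w => ⟨true :: w.1, by simp [w.2.1], w.2.2⟩)
      (fun w => ⟨false :: w.1, by simp [w.2.1], w.2.2⟩) s :
        {w : List Bool // w.length = k + 1 ∧ T w})) ⟨?_, ?_⟩)).symm
  · rintro (a | a) (b | b) h
    · simp only [Sum.elim_inl, Subtype.mk.injEq, List.cons.injEq, true_and] at h
      exact congrArg Sum.inl (Subtype.ext h)
    · simp at h
    · simp at h
    · simp only [Sum.elim_inr, Subtype.mk.injEq, List.cons.injEq, true_and] at h
      exact congrArg Sum.inr (Subtype.ext h)
  · rintro ⟨w, hw, hT⟩
    cases w with
    | nil => simp at hw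
    | cons b w =>
      have hw' : w.length = k := by simpa using hw
      cases b with
      | true => exact ⟨Sum.inl ⟨w, hw', hT⟩, rfl⟩
      | false => exact ⟨Sum.inr ⟨w, hw', hT⟩, rfl⟩

theorem card_ge : ∀ (k v : ℕ),
    Nat.card {w : List Bool // w.length = k ∧ v ≤ valB w} = 2 ^ k - v := by
  intro k
  induction k with
  | zero =>
    intro v
    rcases Nat.eq_zero_or_pos v with rfl | hv
    · have : Nat.card {w : List Bool // w.length = 0 ∧ 0 ≤ valB w} =
        Nat.card {w : List Bool // w.length = 0} :=
        Nat.card_congr (Equiv.subtypeEquivRight fun w => by simp)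
      rw [this, card_length_eq]
      rfl
    · have h1 : 2 ^ 0 - v = 0 := by omega
      rw [h1, Nat.card_eq_zero]
      left
      refine ⟨fun w => ?_⟩
      have h2 : w.1 = [] := List.length_eq_zero_iff.1 w.2.1
      have h3 := w.2.2
      rw [h2] at h3
      simp at h3
      omega
  | succ k ih =>
    intro v
    rw [card_split]
    have e1 : Nat.card {w : List Bool // w.length = k ∧ v ≤ valB (true :: w)} = 2 ^ k - v / 2 := by
      rw [← ih]
      refine Nat.card_congr (Equiv.subtypeEquivRight fun w => and_congr_right fun _ => ?_)
      rw [valB_cons, if_pos rfl]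
      omega
    have e2 : Nat.card {w : List Bool // w.length = k ∧ v ≤ valB (false :: w)} =
        2 ^ k - (v + 1) / 2 := by
      rw [← ih]
      refine Nat.card_congr (Equiv.subtypeEquivRight fun w => and_congr_right fun _ => ?_)
      rw [valB_cons, if_neg (by simp)]
      omega
    rw [e1, e2, pow_succ]
    omega

theorem card_pad {k l : ℕ} (h : l ≤ k) (T : List Bool → Prop) :
    Nat.card {w : List Bool // w.length = k ∧ ((w.drop l).all fun b => !b) = true ∧
      T (w.take l)} = Nat.card {w : List Bool // w.length = l ∧ T w} := by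
  refine (Nat.card_congr (Equiv.ofBijective (fun w : {w : List Bool // w.length = l ∧ T w} =>
    (⟨w.1 ++ List.replicate (k - l) false, ?_, ?_, ?_⟩ :
      {w : List Bool // w.length = k ∧ ((w.drop l).all fun b => !b) = true ∧
      T (w.take l)})) ⟨?_, ?_⟩)).symm
  · rw [List.length_append, List.length_replicate, w.2.1]
    omega
  · rw [List.drop_left' w.2.1]
    simp
  · rw [List.take_left' w.2.1]
    exact w.2.2
  · intro a b h
    simp only [Subtype.mk.injEq] at h
    exact Subtype.ext (List.append_cancel_right h)
  · rintro ⟨w, hw, h1, h2⟩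
    refine ⟨⟨w.take l, by simp; omega, h2⟩, ?_⟩
    apply Subtype.ext
    simp only
    have h3 : w.drop l = List.replicate (k - l) false := by
      rw [List.eq_replicate_iff]
      refine ⟨by simp; omega, fun b hb => ?_⟩
      rw [List.all_eq_true] at h1
      simpa using h1 b hb
    rw [← h3, List.take_append_drop]

/-! ### PP and the graphs of #P functions -/

/-- If the graphs of the #P functions are in NP then so is PP. -/
theorem pp_of_graph (hG : ∀ f, Cnt.SharpP f → InNPP (fun p : List Bool × ℕ => f p.1 = p.2))
    {L : Set (List Bool)} (hL : InPPc L) : InNP L := by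
  obtain ⟨V, p, hV, hL⟩ := hL
  set f : List Bool → ℕ := fun x => Nat.card {w : List Bool // w.length = p.eval x.length ∧
      V (pairBits x w) = [true]} with hf
  have hfP : Cnt.SharpP f := ⟨V, p, hV, fun x => rfl⟩
  have hfle : ∀ x, f x ≤ 2 ^ p.eval x.length := by
    intro x
    rw [← card_length_eq]
    exact Nat.card_le_card_of_injective (fun w => ⟨w.1, w.2.1⟩) (by
      intro a b h
      simp only [Subtype.mk.injEq] at h
      exact Subtype.ext h)
  apply inNP_raw
  have h1 : InNPP (fun x : List Bool => ∃ v, f x = v ∧
      decide (2 ^ p.eval x.length < 2 * v) = true) := by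
    refine InNPP.exists (Q := fun y : List Bool × ℕ => f y.1 = y.2 ∧
      decide (2 ^ p.eval y.1.length < 2 * y.2) = true) (InNPP.and (hG f hfP) ?_)
      (Polynomial.C 4 * p + Polynomial.C 5) ?_
    · refine inNPP_of_test ?_ fun y => Iff.rfl
      have := poly_two_pow (uPoly_evalLen (x := fun y : List Bool × ℕ => y.1) (by fun_prop) p)
      fun_prop
    · rintro x v ⟨hv, h⟩
      refine ⟨v, ?_, hv, h⟩
      simp only at hv
      have h2 := hfle x
      rw [hv] at h2
      have h3 : v < 2 ^ (p.eval x.length + 1) := by
        rw [pow_succ]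
        have : 0 < 2 ^ p.eval x.length := by positivity
        omega
      have h4 := sz_nat_le v
      have h5 := Nat.size_le.2 h3
      have h6 : p.eval x.length ≤ p.eval (sz x) := eval_mono p (length_lt_sz x).le
      simp only [Polynomial.eval_add, Polynomial.eval_mul, Polynomial.eval_C]
      omega
  refine cast (congrArg InNPP ?_) h1
  funext x
  apply propext
  rw [hL x]
  simp only [exists_eq_left', decide_eq_true_eq]
  rfl

/-- the verifier for `v < f x` -/
def gtTest (V : List Bool → List Bool) (p : Polynomial ℕ) (s : List Bool × List Bool) : Bool :=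
  ((unbits (List Bool × ℕ) s.1).elim false fun a =>
    bif s.2.head?.getD false then
      ((s.2.tail.drop (p.eval a.1.length)).all fun b => !b) &&
        decide (V (pairBits a.1 (s.2.tail.take (p.eval a.1.length))) = [true])
    else decide (a.2 ≤ valB s.2.tail))

theorem poly_gtTest {V : List Bool → List Bool} (hV : PolyTime V) (p : Polynomial ℕ) :
    Poly (gtTest V p) := by
  unfold gtTest
  have hV' := poly_of_polyTime hV
  have h1 : Poly (fun s : List Bool × List Bool => unbits (List Bool × ℕ) s.1) :=
    poly_unbits.comp (Poly.fst Poly.id)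
  have hp : Poly (fun z : (List Bool × List Bool) × List Bool × ℕ => p.eval z.2.1.length) :=
    (uPoly_evalLen (x := fun z : (List Bool × List Bool) × List Bool × ℕ => z.2.1)
      (by fun_prop) p).toPoly
  have htl : Poly (fun z : (List Bool × List Bool) × List Bool × ℕ => z.1.2.tail) := by fun_prop
  have htake : Poly (fun z : (List Bool × List Bool) × List Bool × ℕ =>
      z.1.2.tail.take (p.eval z.2.1.length)) := poly_take htl hp
  have hdrop : Poly (fun z : (List Bool × List Bool) × List Bool × ℕ =>
      z.1.2.tail.drop (p.eval z.2.1.length)) := poly_drop htl hp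
  have hVz : Poly (fun z : (List Bool × List Bool) × List Bool × ℕ =>
      V (pairBits z.2.1 (z.1.2.tail.take (p.eval z.2.1.length)))) :=
    hV'.comp (poly_pairBits (by fun_prop) htake)
  have hval : Poly (fun z : (List Bool × List Bool) × List Bool × ℕ => valB z.1.2.tail) :=
    Poly.valBits htl
  have hVd : Poly (fun z : (List Bool × List Bool) × List Bool × ℕ =>
      decide (V (pairBits z.2.1 (z.1.2.tail.take (p.eval z.2.1.length))) = [true])) :=
    Poly.decide_eq hVz (Poly.const [true])
  refine Poly.optElim h1 (Poly.const false) ?_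
  refine Poly.cond (by fun_prop) (Poly.and (Poly.all hdrop (by fun_prop)) hVd) ?_
  exact Poly.decide_le (by fun_prop) hval

/-- The set of the `(x, v)` with `v < f x` is in PP. -/
theorem gt_inPP {f : List Bool → ℕ} (hf : Cnt.SharpP f) :
    InPPc (lang fun y : List Bool × ℕ => y.2 < f y.1) := by
  obtain ⟨V, p, hV, hVf⟩ := hf
  refine ⟨fun y => [gtTest V p (unpair y)], p + Polynomial.C 1,
    polyTime_of_poly ((poly_gtTest hV p).comp poly_unpair), fun y => ?_⟩
  simp only [unpair_pairBits, List.cons.injEq, and_true, Polynomial.eval_add, Polynomial.eval_C]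
  rw [card_split, mem_lang_iff]
  cases hy : unbits (List Bool × ℕ) y with
  | none =>
    have h0 : ∀ b, Nat.card {w : List Bool // w.length = p.eval y.length ∧
        gtTest V p (y, b :: w) = true} = 0 := by
      intro b
      rw [Nat.card_eq_zero]
      left
      refine ⟨fun w => ?_⟩
      have := w.2.2
      simp only [gtTest, hy, Option.elim_none] at this
      exact Bool.false_ne_true this
    rw [h0, h0]
    simp
  | some a =>
    obtain ⟨x, v⟩ := a
    have hyx := bits_of_unbits hy
    have hlen : x.length ≤ y.length := by
      rw [← hyx, bits_length, sz_pair]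
      have : x.length < sz x := length_lt_sz x
      omega
    have hk : p.eval x.length ≤ p.eval y.length := eval_mono p hlen
    have e1 : Nat.card {w : List Bool // w.length = p.eval y.length ∧
        gtTest V p (y, true :: w) = true} = f x := by
      rw [hVf x, ← card_pad hk (fun w => V (pairBits x w) = [true])]
      refine Nat.card_congr (Equiv.subtypeEquivRight fun w => and_congr_right fun _ => ?_)
      simp only [gtTest, hy, Option.elim_some, List.head?_cons, Option.getD_some, cond_true,
        List.tail_cons, Bool.and_eq_true]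
      exact and_congr_right fun _ => decide_eq_true_iff
    have e2 : Nat.card {w : List Bool // w.length = p.eval y.length ∧
        gtTest V p (y, false :: w) = true} = 2 ^ p.eval y.length - v := by
      rw [← card_ge]
      refine Nat.card_congr (Equiv.subtypeEquivRight fun w => and_congr_right fun _ => ?_)
      simp only [gtTest, hy, Option.elim_some, List.head?_cons, Option.getD_some, cond_false,
        List.tail_cons]
      exact decide_eq_true_iff
    rw [e1, e2, pow_succ]
    have hfle : f x ≤ 2 ^ p.eval y.length := by
      refine le_trans ?_ (Nat.pow_le_pow_right (by norm_num) hk)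
      rw [hVf x, ← card_length_eq]
      exact Nat.card_le_card_of_injective (fun w => ⟨w.1, w.2.1⟩) (by
        intro a b h
        simp only [Subtype.mk.injEq] at h
        exact Subtype.ext h)
    constructor
    · rintro ⟨b, hb, hlt⟩
      cases hb
      simp only at hlt
      omega
    · intro h
      refine ⟨(x, v), rfl, ?_⟩
      simp only
      omega

/-- The complementary counting function. -/
theorem sharpP_compl {V : List Bool → List Bool} {p : Polynomial ℕ} (hV : PolyTime V) :
    Cnt.SharpP (fun x => 2 ^ p.eval x.length - Nat.card {w : List Bool //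
      w.length = p.eval x.length ∧ V (pairBits x w) = [true]}) := by
  classical
  refine ⟨fun y => [!decide (V y = [true])], p, polyTime_of_poly ?_, fun x => ?_⟩
  · have := poly_of_polyTime hV
    fun_prop
  · have h1 : Nat.card {w : List Bool // w.length = p.eval x.length} =
        Nat.card {w : List Bool // w.length = p.eval x.length ∧ V (pairBits x w) = [true]} +
        Nat.card {w : List Bool // w.length = p.eval x.length ∧ ¬ V (pairBits x w) = [true]} := by
      rw [← Nat.card_sum]
      refine (Nat.card_congr (Equiv.ofBijective (fun s : {w : List Bool //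
        w.length = p.eval x.length ∧ V (pairBits x w) = [true]} ⊕ {w : List Bool //
          w.length = p.eval x.length ∧ ¬ V (pairBits x w) = [true]} =>
        (Sum.elim (fun w => ⟨w.1, w.2.1⟩) (fun w => ⟨w.1, w.2.1⟩) s :
          {w : List Bool // w.length = p.eval x.length})) ⟨?_, ?_⟩)).symm
      · rintro (a | a) (b | b) h
        · simp only [Sum.elim_inl, Subtype.mk.injEq] at h
          exact congrArg Sum.inl (Subtype.ext h)
        · simp only [Sum.elim_inl, Sum.elim_inr, Subtype.mk.injEq] at h
          exact absurd (h ▸ a.2.2) b.2.2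
        · simp only [Sum.elim_inl, Sum.elim_inr, Subtype.mk.injEq] at h
          exact absurd (h ▸ b.2.2) a.2.2
        · simp only [Sum.elim_inr, Subtype.mk.injEq] at h
          exact congrArg Sum.inr (Subtype.ext h)
      · rintro ⟨w, hw⟩
        by_cases h : V (pairBits x w) = [true]
        · exact ⟨Sum.inl ⟨w, hw, h⟩, rfl⟩
        · exact ⟨Sum.inr ⟨w, hw, h⟩, rfl⟩
    rw [card_length_eq] at h1
    have h2 : Nat.card {w : List Bool // w.length = p.eval x.length ∧
        [!decide (V (pairBits x w) = [true])] = [true]} =
        Nat.card {w : List Bool // w.length = p.eval x.length ∧ ¬ V (pairBits x w) = [true]} := by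
      refine Nat.card_congr (Equiv.subtypeEquivRight fun w => and_congr_right fun _ => ?_)
      simp
    rw [h2]
    show _ - _ = _
    omega

/-- If PP is contained in NP then the graphs of the #P functions are in NP. -/
theorem graph_of_pp (hPP : ∀ L, InPPc L → InNP L) {f : List Bool → ℕ} (hf : Cnt.SharpP f) :
    InNPP (fun y : List Bool × ℕ => f y.1 = y.2) := by
  have h1 : InNPP (fun y : List Bool × ℕ => y.2 < f y.1) := hPP _ (gt_inPP hf)
  obtain ⟨V, p, hV, hVf⟩ := id hf
  have h2 : InNPP (fun y : List Bool × ℕ => y.2 < 2 ^ p.eval y.1.length -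
      Nat.card {w : List Bool // w.length = p.eval y.1.length ∧ V (pairBits y.1 w) = [true]}) :=
    hPP _ (gt_inPP (sharpP_compl hV))
  have hpw : Poly (fun y : List Bool × ℕ => 2 ^ p.eval y.1.length) :=
    poly_two_pow (uPoly_evalLen (by fun_prop) p)
  -- `v ≤ f x`
  have h3 : InNPP (fun y : List Bool × ℕ => y.2 ≤ f y.1) := by
    obtain ⟨R, q, r1, r2, r3⟩ := InNPP.cert h1
    refine of_cert (β := List Bool) (R := fun z => decide (z.1.2 = 0) ||
      R ((z.1.1, z.1.2 - 1), z.2)) ?_ (q.comp (Polynomial.C 2 * Polynomial.X) + Polynomial.C 1)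
      (fun a w hw => ?_) fun a ha => ?_
    · have : Poly (fun z : (List Bool × ℕ) × List Bool => R ((z.1.1, z.1.2 - 1), z.2)) :=
        r1.comp (by fun_prop)
      fun_prop
    · simp only [Bool.or_eq_true, decide_eq_true_eq] at hw
      rcases hw with hw | hw
      · show a.2 ≤ f a.1
        omega
      · have := r2 _ _ hw
        simp only at this
        omega
    · rcases Nat.eq_zero_or_pos a.2 with h0 | h0
      · exact ⟨[], by simp, by simp [h0]⟩
      · obtain ⟨w, hw, hR⟩ := r3 (a.1, a.2 - 1) (by simp only; omega)
        refine ⟨w, hw.trans ?_, by simp [hR]⟩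
        rw [Polynomial.eval_add, Polynomial.eval_C, Polynomial.eval_comp, Polynomial.eval_mul,
          Polynomial.eval_C, Polynomial.eval_X]
        refine (eval_mono q ?_).trans (Nat.le_add_right _ _)
        have h5 := sz_nat_mono_le (Nat.sub_le a.2 1)
        have h6 : sz a = sz a.1 + sz a.2 + 1 := by
          conv_lhs => rw [← Prod.mk.eta (p := a)]
          rw [sz_pair]
        rw [sz_pair]
        omega
  -- `f x ≤ v`
  have h4 : InNPP (fun y : List Bool × ℕ => f y.1 ≤ y.2) := by
    obtain ⟨R, q, r1, r2, r3⟩ := InNPP.cert h2
    have hc : Poly (fun z : (List Bool × ℕ) × List Bool =>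
        (((z.1.1, 2 ^ p.eval z.1.1.length - z.1.2 - 1), z.2) :
          (List Bool × ℕ) × List Bool)) := by
      have := hpw.comp (f := fun z : (List Bool × ℕ) × List Bool => z.1) (by fun_prop)
      fun_prop
    obtain ⟨c, hc'⟩ := hc.sz_le
    have hfle : ∀ x, f x ≤ 2 ^ p.eval x.length := by
      intro x
      rw [hVf x, ← card_length_eq]
      exact Nat.card_le_card_of_injective (fun w => ⟨w.1, w.2.1⟩) (by
        intro a b h
        simp only [Subtype.mk.injEq] at h
        exact Subtype.ext h)
    refine of_cert (β := List Bool) (R := fun z => decide (2 ^ p.eval z.1.1.length ≤ z.1.2) ||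
      R ((z.1.1, 2 ^ p.eval z.1.1.length - z.1.2 - 1), z.2)) ?_
      (q.comp (c.comp (Polynomial.X + Polynomial.C 2)) + Polynomial.C 1)
      (fun a w hw => ?_) fun a ha => ?_
    · have h5 := hpw.comp (f := fun z : (List Bool × ℕ) × List Bool => z.1) (by fun_prop)
      have h6 : Poly (fun z : (List Bool × ℕ) × List Bool =>
        R ((z.1.1, 2 ^ p.eval z.1.1.length - z.1.2 - 1), z.2)) := r1.comp hc
      fun_prop
    · simp only [Bool.or_eq_true, decide_eq_true_eq] at hw
      have h7 := hfle a.1
      rcases hw with hw | hw
      · exact h7.trans hw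
      · have := r2 _ _ hw
        simp only at this
        rw [← hVf] at this
        omega
    · by_cases h0 : 2 ^ p.eval a.1.length ≤ a.2
      · exact ⟨[], by simp, by simp [h0]⟩
      · have h7 := hfle a.1
        obtain ⟨w, hw, hR⟩ := r3 (a.1, 2 ^ p.eval a.1.length - a.2 - 1) (by
          simp only
          rw [← hVf]
          omega)
        refine ⟨w, hw.trans ?_, by simp [hR]⟩
        rw [Polynomial.eval_add, Polynomial.eval_C, Polynomial.eval_comp, Polynomial.eval_comp,
          Polynomial.eval_add, Polynomial.eval_C, Polynomial.eval_X]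
        refine (eval_mono q ?_).trans (Nat.le_add_right _ _)
        have h8 := hc' (a, [])
        rw [sz_pair, sz_pair a, sz_list_nil, show sz a + 1 + 1 = sz a + 2 by ring] at h8
        simp only at h8
        omega
  refine cast (congrArg InNPP ?_) (InNPP.and h3 h4)
  funext y
  exact propext ⟨fun h => le_antisymm h.2 h.1, fun h => ⟨h.ge, h.le⟩⟩

/-- If the graphs of the #P functions are in NP then NP is closed under complementation. -/
theorem compl_of_graph (hG : ∀ f, Cnt.SharpP f → InNPP (fun p : List Bool × ℕ => f p.1 = p.2))
    {L : Set (List Bool)} (hL : InNP L) : InNP Lᶜ := by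
  obtain ⟨V, p, hV, hL⟩ := hL
  let R : List Bool → List Bool → Bool := fun x w =>
    decide (w.length ≤ p.eval x.length) && decide (V (pairBits x w) = [true])
  have hR : Poly (fun z : List Bool × List Bool => R z.1 z.2) := by
    have h1 : Poly (fun z : List Bool × List Bool => p.eval z.1.length) :=
      (uPoly_evalLen (x := fun z : List Bool × List Bool => z.1) (by fun_prop) p).toPoly
    have h2 : Poly (fun z : List Bool × List Bool => V (pairBits z.1 z.2)) :=
      (poly_of_polyTime hV).comp (poly_pairBits (by fun_prop) (by fun_prop))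
    exact Poly.and (Poly.decide_le (by fun_prop) h1) (Poly.decide_eq h2 (Poly.const [true]))
  have hRiff : ∀ x w, R x w = true ↔ w.length ≤ p.eval x.length ∧ V (pairBits x w) = [true] := by
    intro x w
    simp only [R, Bool.and_eq_true, decide_eq_true_eq]
  have hS := Cnt.sharpP_typed R hR (Polynomial.C 4 * p + Polynomial.C 1) (fun x w h => by
    have h1 := ((hRiff x w).1 h).1
    have h2 := sz_listBool_le w
    have h3 : p.eval x.length ≤ p.eval (sz x) := eval_mono p (length_lt_sz x).le
    simp only [Polynomial.eval_add, Polynomial.eval_mul, Polynomial.eval_C]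
    omega)
  have h1 := InNPP.comp (f := fun x : List Bool => (bits x, 0)) (hG _ hS)
    (Poly.pair poly_bits (Poly.const 0))
  apply inNP_raw
  refine cast (congrArg InNPP ?_) h1
  funext x
  apply propext
  simp only [Cnt.strFn_bits]
  rw [Set.mem_compl_iff, hL x]
  have hfin : Finite {w : List Bool // R x w = true} := by
    have h2 : ({w : List Bool | R x w = true} : Set (List Bool)).Finite :=
      (List.finite_length_le Bool (p.eval x.length)).subset fun w hw => ((hRiff x w).1 hw).1
    exact h2
  rw [Nat.card_eq_zero, or_iff_left (not_infinite_iff_finite.2 hfin)]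
  constructor
  · rintro ⟨h⟩ ⟨w, hw⟩
    exact h ⟨w, (hRiff x w).2 hw⟩
  · intro h
    exact ⟨fun w => h ⟨w.1, (hRiff x w.1).1 w.2⟩⟩

end Pool.Agent.NPC.Med
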