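import Pool.Agent.H578R2.Med.Defs

/-!
# An instance whose stable matchings are the down-sets of a poset of height 2
-/

namespace Pool.Agent.NPC.Med

/-- The requirement lists of the elements: the bottoms `0, …, b - 1` have none. -/
def reqs (P : ℕ × List (List ℕ)) : List (List ℕ) := List.replicate P.1 [] ++ P.2

/-- the number of elements -/
def nel (P : ℕ × List (List ℕ)) : ℕ := P.1 + P.2.length

/-- the elements required by `x` -/
def up (P : ℕ × List (List ℕ)) (x : ℕ) : List ℕ :=
  (List.range (nel P)).filter fun u => decide (u ∈ (reqs P).getD x [])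

/-- the elements requiring `u` -/
def dn (P : ℕ × List (List ℕ)) (u : ℕ) : List ℕ :=
  (List.range (nel P)).filter fun x => decide (u ∈ (reqs P).getD x [])

/-- the first part of the list of a man -/
def keyM (P : ℕ × List (List ℕ)) (i : ℕ) : List ℕ :=
  if i % 2 = 0 then i :: (up P (i / 2)).map (fun u => 2 * u) ++ [i + 1] else [i, i - 1]

/-- the first part of the list of a woman -/
def keyW (P : ℕ × List (List ℕ)) (i : ℕ) : List ℕ :=
  if i % 2 = 0 then (i + 1) :: (dn P (i / 2)).map (fun u => 2 * u) ++ [i] else [i - 1, i]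

/-- completion of a list -/
def full (N : ℕ) (key : List ℕ) : List ℕ :=
  key ++ (List.range N).filter fun x => decide (x ∉ key)

/-- the instance -/
def build (P : ℕ × List (List ℕ)) : Inst :=
  ((List.range (2 * nel P)).map fun i => full (2 * nel P) (keyM P i),
    (List.range (2 * nel P)).map fun i => full (2 * nel P) (keyW P i))

/-- the bottoms required by the tops are bottoms -/
def OK (P : ℕ × List (List ℕ)) : Prop := ∀ t ∈ P.2, ∀ u ∈ t, u < P.1

/-- `x` requires `u` -/
def Rq (P : ℕ × List (List ℕ)) (x u : ℕ) : Prop := u ∈ (reqs P).getD x []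

theorem Rq.lt {P : ℕ × List (List ℕ)} (hP : OK P) {x u : ℕ} (h : Rq P x u) :
    u < P.1 ∧ P.1 ≤ x ∧ x < nel P := by
  unfold Rq reqs at h
  rcases lt_or_ge x P.1 with hx | hx
  · rw [List.getD_append _ _ _ _ (by simpa using hx), List.getD_replicate _ hx] at h
    simp at h
  · rw [List.getD_append_right _ _ _ _ (by simpa using hx), List.length_replicate] at h
    by_cases h2 : x - P.1 < P.2.length
    · rw [List.getD_eq_getElem _ _ h2] at h
      exact ⟨hP _ (List.getElem_mem _) _ h, hx, by unfold nel; omega⟩
    · rw [List.getD_eq_default _ _ (by omega)] at h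
      simp at h

theorem mem_up {P : ℕ × List (List ℕ)} (hP : OK P) {x u : ℕ} : u ∈ up P x ↔ Rq P x u := by
  unfold up
  rw [List.mem_filter, List.mem_range, decide_eq_true_eq]
  refine ⟨fun h => h.2, fun h => ⟨?_, h⟩⟩
  have := h.lt hP
  omega

theorem mem_dn {P : ℕ × List (List ℕ)} (hP : OK P) {x u : ℕ} : x ∈ dn P u ↔ Rq P x u := by
  unfold dn
  rw [List.mem_filter, List.mem_range, decide_eq_true_eq]
  exact ⟨fun h => h.2, fun h => ⟨(Rq.lt hP h).2.2, h⟩⟩

theorem idx_lt {l1 l2 : List ℕ} {a b : ℕ} (ha : a ∈ l1) (hb : b ∉ l1) :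
    (l1 ++ l2).idxOf a < (l1 ++ l2).idxOf b := by
  rw [List.idxOf_append_of_mem ha, List.idxOf_append_of_notMem hb]
  have := List.idxOf_lt_length_iff.2 ha
  omega

theorem mem_of_idx_lt {l1 l2 : List ℕ} {a b : ℕ} (hb : b ∉ l1)
    (h : (l1 ++ b :: l2).idxOf a < (l1 ++ b :: l2).idxOf b) : a ∈ l1 := by
  by_contra ha
  rw [List.idxOf_append_of_notMem ha, List.idxOf_append_of_notMem hb] at h
  simp at h

theorem full_perm {N : ℕ} {key : List ℕ} (h1 : key.Nodup) (h2 : ∀ x ∈ key, x < N) :
    (full N key).Perm (List.range N) := by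
  rw [List.perm_ext_iff_of_nodup]
  · intro a
    unfold full
    rw [List.mem_append, List.mem_filter, List.mem_range, decide_eq_true_eq]
    constructor
    · rintro (h | h)
      · exact h2 a h
      · exact h.1
    · intro h
      by_cases ha : a ∈ key
      · exact Or.inl ha
      · exact Or.inr ⟨h, ha⟩
  · unfold full
    rw [List.nodup_append]
    refine ⟨h1, List.nodup_range.filter _, ?_⟩
    intro a ha b hb hab
    rw [List.mem_filter, decide_eq_true_eq] at hb
    exact hb.2 (hab ▸ ha)
  · exact List.nodup_range

section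

variable {P : ℕ × List (List ℕ)} (hP : OK P)

theorem keyM_even (x : ℕ) : keyM P (2 * x) =
    2 * x :: (up P x).map (fun u => 2 * u) ++ [2 * x + 1] := by
  unfold keyM
  rw [if_pos (by omega), show 2 * x / 2 = x by omega]

theorem keyM_odd (x : ℕ) : keyM P (2 * x + 1) = [2 * x + 1, 2 * x] := by
  unfold keyM
  rw [if_neg (by omega)]
  rfl

theorem keyW_even (x : ℕ) : keyW P (2 * x) =
    (2 * x + 1) :: (dn P x).map (fun u => 2 * u) ++ [2 * x] := by
  unfold keyW
  rw [if_pos (by omega), show 2 * x / 2 = x by omega]

theorem keyW_odd (x : ℕ) : keyW P (2 * x + 1) = [2 * x, 2 * x + 1] := by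
  unfold keyW
  rw [if_neg (by omega)]
  rfl

include hP in
theorem keyM_ok {i : ℕ} (hi : i < 2 * nel P) : (keyM P i).Nodup ∧ ∀ x ∈ keyM P i, x < 2 * nel P := by
  obtain ⟨x, rfl | rfl⟩ : ∃ x, i = 2 * x ∨ i = 2 * x + 1 := ⟨i / 2, by omega⟩
  · rw [keyM_even]
    constructor
    · rw [List.nodup_append]
      refine ⟨?_, List.nodup_singleton _, ?_⟩
      · rw [List.nodup_cons]
        constructor
        · rw [List.mem_map]
          rintro ⟨u, hu, h⟩
          have := Rq.lt hP ((mem_up hP).1 hu)
          omega
        · refine List.Nodup.map (fun a b h => ?_) (List.nodup_range.filter _)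
          have h : 2 * a = 2 * b := h
          omega
      · intro a ha b hb hab
        rw [List.mem_singleton] at hb
        subst hb
        subst hab
        rw [List.mem_cons, List.mem_map] at ha
        rcases ha with ha | ⟨u, _, ha⟩ <;> omega
    · intro y hy
      rw [List.mem_append, List.mem_cons, List.mem_map, List.mem_singleton] at hy
      rcases hy with (hy | ⟨u, hu, hy⟩) | hy
      · omega
      · have := Rq.lt hP ((mem_up hP).1 hu)
        omega
      · omega
  · rw [keyM_odd]
    constructor
    · simp
    · intro y hy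
      simp only [List.mem_cons, List.not_mem_nil, or_false] at hy
      omega

include hP in
theorem keyW_ok {i : ℕ} (hi : i < 2 * nel P) : (keyW P i).Nodup ∧ ∀ x ∈ keyW P i, x < 2 * nel P := by
  obtain ⟨x, rfl | rfl⟩ : ∃ x, i = 2 * x ∨ i = 2 * x + 1 := ⟨i / 2, by omega⟩
  · rw [keyW_even]
    constructor
    · rw [List.nodup_append]
      refine ⟨?_, List.nodup_singleton _, ?_⟩
      · rw [List.nodup_cons]
        constructor
        · rw [List.mem_map]
          rintro ⟨u, hu, h⟩
          omega
        · refine List.Nodup.map (fun a b h => ?_) (List.nodup_range.filter _)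
          have h : 2 * a = 2 * b := h
          omega
      · intro a ha b hb hab
        rw [List.mem_singleton] at hb
        subst hb
        subst hab
        rw [List.mem_cons, List.mem_map] at ha
        rcases ha with ha | ⟨u, hu, ha⟩
        · omega
        · have := Rq.lt hP ((mem_dn hP).1 hu)
          omega
    · intro y hy
      rw [List.mem_append, List.mem_cons, List.mem_map, List.mem_singleton] at hy
      rcases hy with (hy | ⟨u, hu, hy⟩) | hy
      · omega
      · have := Rq.lt hP ((mem_dn hP).1 hu)
        omega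
      · omega
  · rw [keyW_odd]
    constructor
    · simp
    · intro y hy
      simp only [List.mem_cons, List.not_mem_nil, or_false] at hy
      omega

theorem build_length : (build P).1.length = 2 * nel P := by simp [build]

include hP in
theorem build_valid : Valid (build P) := by
  refine ⟨by simp [build], ?_, ?_⟩
  · intro l hl
    rw [build_length]
    simp only [build, List.mem_map, List.mem_range] at hl
    obtain ⟨i, hi, rfl⟩ := hl
    exact full_perm (keyM_ok hP hi).1 (keyM_ok hP hi).2
  · intro l hl
    rw [build_length]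
    simp only [build, List.mem_map, List.mem_range] at hl
    obtain ⟨i, hi, rfl⟩ := hl
    exact full_perm (keyW_ok hP hi).1 (keyW_ok hP hi).2

theorem rankM_build {i : ℕ} (hi : i < 2 * nel P) (w : ℕ) :
    rankM (build P) i w = (full (2 * nel P) (keyM P i)).idxOf w := by
  unfold rankM build
  simp only
  rw [List.getD_eq_getElem _ _ (by simpa using hi)]
  simp

theorem rankW_build {i : ℕ} (hi : i < 2 * nel P) (w : ℕ) :
    rankW (build P) i w = (full (2 * nel P) (keyW P i)).idxOf w := by
  unfold rankW build
  simp only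
  rw [List.getD_eq_getElem _ _ (by simpa using hi)]
  simp

/-- the partner of man `i` (or of woman `i`) when the elements of `S` are in state 1 -/
def sw (S : Finset ℕ) (i : ℕ) : ℕ :=
  if i / 2 ∈ S then (if i % 2 = 0 then i + 1 else i - 1) else i

theorem sw_div (S : Finset ℕ) (i : ℕ) : sw S i / 2 = i / 2 := by
  unfold sw
  split_ifs <;> omega

theorem sw_sw (S : Finset ℕ) (i : ℕ) : sw S (sw S i) = i := by
  have h := sw_div S i
  unfold sw at h ⊢
  split_ifs at h ⊢ <;> simp_all <;> omega

/-- the matching with the elements of `S` in state 1 -/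
def matchOf (P : ℕ × List (List ℕ)) (S : Finset ℕ) : List ℕ :=
  (List.range (2 * nel P)).map (sw S)

theorem matchOf_getD {S : Finset ℕ} {i : ℕ} (hi : i < 2 * nel P) :
    (matchOf P S).getD i 0 = sw S i := by
  unfold matchOf
  rw [List.getD_eq_getElem _ _ (by simpa using hi)]
  simp

theorem sw_lt {S : Finset ℕ} {i : ℕ} (hi : i < 2 * nel P) : sw S i < 2 * nel P := by
  have := sw_div S i
  omega

theorem matchOf_nodup (S : Finset ℕ) : (matchOf P S).Nodup := by
  refine List.Nodup.map (fun a b h => ?_) List.nodup_range
  have := congrArg (sw S) h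
  rwa [sw_sw, sw_sw] at this

theorem matchOf_perm (S : Finset ℕ) : (matchOf P S).Perm (List.range (2 * nel P)) := by
  rw [List.perm_ext_iff_of_nodup (matchOf_nodup S) List.nodup_range]
  intro a
  unfold matchOf
  rw [List.mem_map, List.mem_range]
  constructor
  · rintro ⟨i, hi, rfl⟩
    exact sw_lt (List.mem_range.1 hi)
  · intro ha
    exact ⟨sw S a, List.mem_range.2 (sw_lt ha), sw_sw S a⟩

theorem matchOf_idxOf {S : Finset ℕ} {w : ℕ} (hw : w < 2 * nel P) :
    (matchOf P S).idxOf w = sw S w := by
  have h1 : (matchOf P S).getD (sw S w) 0 = w := by rw [matchOf_getD (sw_lt hw), sw_sw]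
  have h2 : sw S w < (matchOf P S).length := by simpa [matchOf] using sw_lt hw
  rw [← idxOf_getD (matchOf_nodup S) h2, h1]

/-- `S` is a down-set -/
def Closed (P : ℕ × List (List ℕ)) (S : Finset ℕ) : Prop := ∀ x ∈ S, ∀ u, Rq P x u → u ∈ S

theorem rankW_first {w m : ℕ} (hw : w < 2 * nel P)
    (h : m = if w % 2 = 0 then w + 1 else w - 1) :
    rankW (build P) w m = 0 ∧ ∀ m', m' ≠ m → 0 < rankW (build P) w m' := by
  obtain ⟨x, rfl | rfl⟩ : ∃ x, w = 2 * x ∨ w = 2 * x + 1 := ⟨w / 2, by omega⟩
  · rw [if_pos (by omega)] at h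
    subst h
    rw [rankW_build hw, keyW_even]
    constructor
    · simp [full]
    · intro m' hm'
      rw [rankW_build hw, keyW_even]
      have := idx_lt (l1 := [2 * x + 1]) (l2 := (dn P x).map (fun u => 2 * u) ++ [2 * x] ++
        (List.range (2 * nel P)).filter (fun y => decide (y ∉ (2 * x + 1) ::
          (dn P x).map (fun u => 2 * u) ++ [2 * x]))) (a := 2 * x + 1) (b := m') (by simp)
          (by simpa using hm')
      refine lt_of_le_of_lt (Nat.zero_le _) (lt_of_lt_of_eq this ?_)
      simp [full]
  · rw [if_neg (by omega)] at h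
    subst h
    rw [rankW_build hw, keyW_odd]
    constructor
    · simp [full]
    · intro m' hm'
      rw [rankW_build hw, keyW_odd]
      have := idx_lt (l1 := [2 * x]) (l2 := [2 * x + 1] ++
        (List.range (2 * nel P)).filter (fun y => decide (y ∉ [2 * x, 2 * x + 1])))
          (a := 2 * x) (b := m') (by simp) (by simpa using hm')
      refine lt_of_le_of_lt (Nat.zero_le _) (lt_of_lt_of_eq this ?_)
      simp [full]

/-- the best position is 0 -/
theorem rankM_self {i : ℕ} (hi : i < 2 * nel P) : rankM (build P) i i = 0 := by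
  obtain ⟨x, rfl | rfl⟩ : ∃ x, i = 2 * x ∨ i = 2 * x + 1 := ⟨i / 2, by omega⟩
  · rw [rankM_build hi, keyM_even]
    simp [full]
  · rw [rankM_build hi, keyM_odd]
    simp [full]

/-- whom a man prefers to his partner in state 1 -/
theorem mem_of_rankM_lt {i w : ℕ} (hi : i < 2 * nel P)
    (h : rankM (build P) i w < rankM (build P) i (if i % 2 = 0 then i + 1 else i - 1)) :
    w = i ∨ ∃ x u, i = 2 * x ∧ w = 2 * u ∧ u ∈ up P x := by
  obtain ⟨x, rfl | rfl⟩ : ∃ x, i = 2 * x ∨ i = 2 * x + 1 := ⟨i / 2, by omega⟩
  · rw [if_pos (by omega), rankM_build hi, rankM_build hi, keyM_even] at h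
    have h2 := mem_of_idx_lt (l1 := 2 * x :: (up P x).map (fun u => 2 * u))
      (l2 := (List.range (2 * nel P)).filter (fun y => decide (y ∉ 2 * x ::
          (up P x).map (fun u => 2 * u) ++ [2 * x + 1]))) (a := w) (b := 2 * x + 1) ?_ ?_
    · rw [List.mem_cons, List.mem_map] at h2
      rcases h2 with h2 | ⟨u, hu, h2⟩
      · exact Or.inl h2
      · exact Or.inr ⟨x, u, rfl, h2.symm, hu⟩
    · rw [List.mem_cons, List.mem_map]
      rintro (h3 | ⟨u, _, h3⟩) <;> omega
    · simpa [full] using h
  · rw [if_neg (by omega), rankM_build hi, rankM_build hi, keyM_odd] at h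
    have h2 := mem_of_idx_lt (l1 := [2 * x + 1])
      (l2 := (List.range (2 * nel P)).filter (fun y => decide (y ∉ [2 * x + 1, 2 * x])))
        (a := w) (b := 2 * x) ?_ ?_
    · exact Or.inl (by simpa using h2)
    · simp
    · simpa [full] using h

include hP in
theorem stable_matchOf {S : Finset ℕ} (hS : Closed P S) : Stable (build P) (matchOf P S) := by
  constructor
  · rw [build_length]
    exact matchOf_perm S
  · rw [build_length]
    intro m hm w hw
    rw [matchOf_getD hm, matchOf_idxOf hw]
    rintro ⟨h1, h2⟩
    by_cases hmS : m / 2 ∈ S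
    · have hs : sw S m = if m % 2 = 0 then m + 1 else m - 1 := by unfold sw; rw [if_pos hmS]
      rw [hs] at h1
      have hwS : w / 2 ∈ S := by
        rcases mem_of_rankM_lt hm h1 with rfl | ⟨x, u, rfl, rfl, hu⟩
        · exact hmS
        · have := hS x (by rwa [show 2 * x / 2 = x by omega] at hmS) u ((mem_up hP).1 hu)
          rwa [show 2 * u / 2 = u by omega]
      have hs2 : sw S w = if w % 2 = 0 then w + 1 else w - 1 := by unfold sw; rw [if_pos hwS]
      have := (rankW_first (P := P) hw rfl).1
      rw [hs2, this] at h2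
      omega
    · have hs : sw S m = m := by unfold sw; rw [if_neg hmS]
      rw [hs, rankM_self hm] at h1
      omega

theorem rankM_key {i w w' : ℕ} (hi : i < 2 * nel P) (hw : w ∈ keyM P i) (hw' : w' ∉ keyM P i) :
    rankM (build P) i w < rankM (build P) i w' := by
  rw [rankM_build hi, rankM_build hi]
  exact idx_lt hw hw'

include hP in
theorem exists_of_stable {M : List ℕ} (hM : Stable (build P) M) :
    ∃ S : Finset ℕ, S ⊆ Finset.range (nel P) ∧ Closed P S ∧ M = matchOf P S := by
  classical
  have hperm : M.Perm (List.range (2 * nel P)) := by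
    have := hM.1
    rwa [build_length] at this
  have hlen : M.length = 2 * nel P := by rw [hperm.length_eq, List.length_range]
  have hnd : M.Nodup := hperm.nodup_iff.2 List.nodup_range
  have hlt : ∀ i < 2 * nel P, M.getD i 0 < 2 * nel P := by
    intro i hi
    rw [List.getD_eq_getElem _ _ (by omega)]
    exact List.mem_range.1 (hperm.mem_iff.1 (List.getElem_mem _))
  have hidx : ∀ i < 2 * nel P, M.idxOf (M.getD i 0) = i := fun i hi =>
    idxOf_getD hnd (by omega)
  have hinj : ∀ i < 2 * nel P, ∀ j < 2 * nel P, M.getD i 0 = M.getD j 0 → i = j := by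
    intro i hi j hj h
    rw [← hidx i hi, h, hidx j hj]
  have hex : ∀ w < 2 * nel P, ∃ i < 2 * nel P, M.getD i 0 = w := by
    intro w hw
    have hmem : w ∈ M := hperm.mem_iff.2 (List.mem_range.2 hw)
    have := List.idxOf_lt_length_iff.2 hmem
    exact ⟨M.idxOf w, by omega, getD_idxOf hmem⟩
  have hst : ∀ m < 2 * nel P, ∀ w < 2 * nel P,
      ¬ (rankM (build P) m w < rankM (build P) m (M.getD m 0) ∧
        rankW (build P) w m < rankW (build P) w (M.idxOf w)) := by
    have := hM.2
    rwa [build_length] at this
  -- a man gets nobody worse than the woman whose first choice he is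
  have key : ∀ i < 2 * nel P, ¬ rankM (build P) i (if i % 2 = 0 then i + 1 else i - 1) <
      rankM (build P) i (M.getD i 0) := by
    intro i hi h
    set w := if i % 2 = 0 then i + 1 else i - 1 with hw
    have hw1 : w < 2 * nel P := by rw [hw]; split_ifs <;> omega
    have hiw : i = if w % 2 = 0 then w + 1 else w - 1 := by
      rw [hw]; split_ifs <;> omega
    have hf := rankW_first (P := P) hw1 hiw
    refine hst i hi w hw1 ⟨h, ?_⟩
    rw [hf.1]
    refine hf.2 _ fun h2 => ?_
    have hmem : w ∈ M := hperm.mem_iff.2 (List.mem_range.2 hw1)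
    have := getD_idxOf hmem
    rw [h2] at this
    rw [this] at h
    omega
  have key2 : ∀ i < 2 * nel P, M.getD i 0 = (if i % 2 = 0 then i + 1 else i - 1) ∨
      M.getD i 0 = i ∨ ∃ x u, i = 2 * x ∧ M.getD i 0 = 2 * u ∧ u ∈ up P x := by
    intro i hi
    by_cases h : M.getD i 0 = (if i % 2 = 0 then i + 1 else i - 1)
    · exact Or.inl h
    · right
      apply mem_of_rankM_lt hi
      rcases lt_trichotomy (rankM (build P) i (M.getD i 0))
        (rankM (build P) i (if i % 2 = 0 then i + 1 else i - 1)) with h1 | h1 | h1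
      · exact h1
      · exfalso
        apply h
        have hp := (build_valid hP).man (m := i) (by rw [build_length]; exact hi)
        rw [build_length] at hp
        have ha : M.getD i 0 ∈ (build P).1.getD i [] := hp.mem_iff.2 (List.mem_range.2 (hlt i hi))
        have hb : (if i % 2 = 0 then i + 1 else i - 1) ∈ (build P).1.getD i [] :=
          hp.mem_iff.2 (List.mem_range.2 (by split_ifs <;> omega))
        rw [← getD_idxOf ha, ← getD_idxOf hb]
        unfold rankM at h1
        rw [h1]
      · exact absurd h1 (key i hi)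
  -- the odd men
  have hodd : ∀ x < nel P, M.getD (2 * x + 1) 0 = 2 * x ∨ M.getD (2 * x + 1) 0 = 2 * x + 1 := by
    intro x hx
    rcases key2 (2 * x + 1) (by omega) with h | h | ⟨y, u, h, _⟩
    · left; rw [h, if_neg (by omega)]; rfl
    · right; exact h
    · omega
  -- the bottoms
  have hbot : ∀ x < P.1, M.getD (2 * x) 0 = 2 * x ∨ M.getD (2 * x) 0 = 2 * x + 1 := by
    intro x hx
    rcases key2 (2 * x) (by unfold nel; omega) with h | h | ⟨y, u, h, _, hu⟩
    · right; rw [h, if_pos (by omega)]
    · left; exact h
    · have := Rq.lt hP ((mem_up hP).1 hu)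
      omega
  have heven : ∀ x < nel P, M.getD (2 * x) 0 = 2 * x ∨ M.getD (2 * x) 0 = 2 * x + 1 := by
    intro x hx
    rcases key2 (2 * x) (by omega) with h | h | ⟨y, u, h, h', hu⟩
    · right; rw [h, if_pos (by omega)]
    · left; exact h
    · exfalso
      have hr := Rq.lt hP ((mem_up hP).1 hu)
      have hu1 : u < P.1 := hr.1
      have hun : u < nel P := by unfold nel; omega
      -- woman `2u` is matched with man `2u` or `2u + 1`
      rcases hbot u hu1 with h1 | h1
      · have := hinj (2 * x) (by omega) (2 * u) (by omega) (by rw [h', h1])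
        omega
      · rcases hodd u hun with h2 | h2
        · have := hinj (2 * x) (by omega) (2 * u + 1) (by omega) (by rw [h', h2])
          omega
        · have := hinj (2 * u) (by omega) (2 * u + 1) (by omega) (by rw [h1, h2])
          omega
  let S : Finset ℕ := (Finset.range (nel P)).filter fun x => M.getD (2 * x) 0 = 2 * x + 1
  have hsw : ∀ i < 2 * nel P, M.getD i 0 = sw S i := by
    intro i hi
    obtain ⟨x, rfl | rfl⟩ : ∃ x, i = 2 * x ∨ i = 2 * x + 1 := ⟨i / 2, by omega⟩
    · unfold sw
      rw [show 2 * x / 2 = x by omega, if_pos (show 2 * x % 2 = 0 by omega)]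
      rcases heven x (by omega) with h | h
      · rw [if_neg, h]
        intro hx
        have := (Finset.mem_filter.1 hx).2
        omega
      · rw [if_pos, h]
        exact Finset.mem_filter.2 ⟨Finset.mem_range.2 (by omega), h⟩
    · unfold sw
      rw [show (2 * x + 1) / 2 = x by omega, if_neg (show ¬ (2 * x + 1) % 2 = 0 by omega)]
      have hinj' := hinj (2 * x) (by omega) (2 * x + 1) (by omega)
      rcases heven x (by omega) with h | h
      · rw [if_neg]
        · rcases hodd x (by omega) with h2 | h2
          · have := hinj' (by rw [h, h2])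
            omega
          · exact h2
        · intro hx
          have := (Finset.mem_filter.1 hx).2
          omega
      · rw [if_pos (show x ∈ S from Finset.mem_filter.2 ⟨Finset.mem_range.2 (by omega), h⟩)]
        rcases hodd x (by omega) with h2 | h2
        · rw [h2]; rfl
        · have := hinj' (by rw [h, h2])
          omega
  have hMS : M = matchOf P S := by
    apply List.ext_getElem
    · rw [hlen]; simp [matchOf]
    · intro i h1 h2
      have h3 := hsw i (by omega)
      rw [List.getD_eq_getElem _ _ h1] at h3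
      rw [h3]
      have h4 := matchOf_getD (P := P) (S := S) (i := i) (by omega)
      rw [List.getD_eq_getElem _ _ h2] at h4
      exact h4.symm
  refine ⟨S, Finset.filter_subset _ _, ?_, hMS⟩
  intro x hx u hu
  by_contra huS
  have hr := Rq.lt hP hu
  have hun : u < nel P := by unfold nel; omega
  refine hst (2 * x) (by omega) (2 * u) (by omega) ⟨?_, ?_⟩
  · -- man `2x` prefers woman `2u`
    have h1 : M.getD (2 * x) 0 = 2 * x + 1 := (Finset.mem_filter.1 hx).2
    rw [h1, rankM_build (by omega), rankM_build (by omega), keyM_even]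
    have := idx_lt (l1 := 2 * x :: (up P x).map (fun u => 2 * u)) (l2 := [2 * x + 1] ++
      (List.range (2 * nel P)).filter (fun y => decide (y ∉ 2 * x ::
          (up P x).map (fun u => 2 * u) ++ [2 * x + 1]))) (a := 2 * u) (b := 2 * x + 1) ?_ ?_
    · simpa [full] using this
    · rw [List.mem_cons, List.mem_map]
      exact Or.inr ⟨u, (mem_up hP).2 hu, rfl⟩
    · rw [List.mem_cons, List.mem_map]
      rintro (h3 | ⟨v, _, h3⟩) <;> omega
  · -- woman `2u` prefers man `2x`
    have h1 : M.idxOf (2 * u) = 2 * u := by
      have h2 : M.getD (2 * u) 0 = 2 * u := by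
        rw [hsw (2 * u) (by omega)]
        unfold sw
        rw [if_neg]
        rwa [show 2 * u / 2 = u by omega]
      have h3 := hidx (2 * u) (by omega)
      rwa [h2] at h3
    rw [h1, rankW_build (by omega), rankW_build (by omega), keyW_even]
    have := idx_lt (l1 := (2 * u + 1) :: (dn P u).map (fun u => 2 * u)) (l2 := [2 * u] ++
      (List.range (2 * nel P)).filter (fun y => decide (y ∉ (2 * u + 1) ::
          (dn P u).map (fun u => 2 * u) ++ [2 * u]))) (a := 2 * x) (b := 2 * u) ?_ ?_
    · simpa [full] using this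
    · rw [List.mem_cons, List.mem_map]
      exact Or.inr ⟨x, (mem_dn hP).2 hu, rfl⟩
    · rw [List.mem_cons, List.mem_map]
      rintro (h3 | ⟨v, hv, h3⟩)
      · omega
      · have hv' := Rq.lt hP ((mem_dn hP).1 hv)
        omega

include hP in
/-- the stable matchings are the matchings given by the down-sets -/
theorem stable_build_iff {M : List ℕ} : Stable (build P) M ↔
    ∃ S : Finset ℕ, S ⊆ Finset.range (nel P) ∧ Closed P S ∧ M = matchOf P S := by
  constructor
  · exact exists_of_stable hP
  · rintro ⟨S, _, hS, rfl⟩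
    exact stable_matchOf hP hS

end

end Pool.Agent.NPC.Med
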