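import Pool.Agent.H578R2.Med.Fwd

/-!
# If the graph of every #P function is in NP then the problem is in NP
-/

namespace Pool.Agent.NPC.Med

theorem sz_prod {α β : Type} [TEnc α] [TEnc β] (y : α × β) : sz y = sz y.1 + sz y.2 + 1 := by
  obtain ⟨a, b⟩ := y
  exact sz_pair a b

/-- `cle` as a counting problem -/
def cleT (y : Inst × ℕ × ℕ) (M : List ℕ) : Bool :=
  stableT y.1 M && decide (rankM y.1 y.2.1 (M.getD y.2.1 0) ≤ y.2.2)

theorem card_cleT (y : Inst × ℕ × ℕ) :
    Nat.card {M : List ℕ // cleT y M = true} = cle y.1 y.2.1 y.2.2 := by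
  unfold cle
  rw [← Nat.card_eq_finsetCard]
  refine Nat.card_congr (Equiv.subtypeEquivRight fun M => ?_)
  rw [Finset.mem_filter, mem_stables]
  unfold cleT
  rw [Bool.and_eq_true, stableT_iff, decide_eq_true_eq]

theorem poly_cleT : Poly (fun x : (Inst × ℕ × ℕ) × List ℕ => cleT x.1 x.2) := by
  unfold cleT
  fun_prop

theorem sharpP_cle : Cnt.SharpP (Cnt.strFn fun y : Inst × ℕ × ℕ => cle y.1 y.2.1 y.2.2) := by
  have h := Cnt.sharpP_typed cleT poly_cleT
    (Polynomial.C 5 * Polynomial.X * Polynomial.X + Polynomial.C 5) (fun y M h => ?_)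
  · have he : (fun y : Inst × ℕ × ℕ => Nat.card {M : List ℕ // cleT y M = true}) =
        fun y => cle y.1 y.2.1 y.2.2 := funext card_cleT
    rwa [he] at h
  · unfold cleT at h
    rw [Bool.and_eq_true, stableT_iff] at h
    refine (sz_matching_le h.1.1).trans (eval_mono _ ?_)
    have := sz_prod y
    omega

theorem stables_card_le (I : Inst) :
    (stables I).card < 2 ^ (I.1.length * I.1.length + 1) := by
  have h1 : (stables I).card ≤ I.1.length.factorial := by
    unfold stables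
    refine (Finset.card_filter_le _ _).trans ((List.toFinset_card_le _).trans ?_)
    rw [List.length_permutations, List.length_range]
  have h2 : I.1.length.factorial ≤ I.1.length ^ I.1.length := Nat.factorial_le_pow _
  have h3 : I.1.length ^ I.1.length ≤ (2 ^ I.1.length) ^ I.1.length :=
    Nat.pow_le_pow_left Nat.lt_two_pow_self.le _
  rw [← pow_mul] at h3
  have h4 : 2 ^ (I.1.length * I.1.length) < 2 ^ (I.1.length * I.1.length + 1) :=
    Nat.pow_lt_pow_right (by norm_num) (by omega)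
  omega

theorem sz_cle_le (I : Inst) (m r : ℕ) : sz (cle I m r) ≤
    (Polynomial.C 4 * Polynomial.X * Polynomial.X + Polynomial.C 5 : Polynomial ℕ).eval
      (sz I) := by
  have h1 := (cle_self I m r).trans_lt (stables_card_le I)
  have h2 := sz_nat_le (cle I m r)
  have h3 := Nat.size_le.2 h1
  have h4 : I.1.length < sz I := by
    have h5 : I.1.length < sz I.1 := length_lt_sz _
    have h6 : sz I = sz I.1 + sz I.2 + 1 := by
      conv_lhs => rw [← Prod.mk.eta (p := I)]
      rw [sz_pair]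
    omega
  simp only [Polynomial.eval_add, Polynomial.eval_mul, Polynomial.eval_C, Polynomial.eval_X]
  have h5 : I.1.length * I.1.length + 1 ≤ sz I * sz I := by nlinarith
  nlinarith

theorem cle_top {I : Inst} (hI : Valid I) : cle I 0 I.1.length = (stables I).card := by
  unfold cle
  rw [Finset.filter_true_of_mem]
  intro M _
  unfold rankM
  refine List.idxOf_le_length.trans ?_
  by_cases h : 0 < I.1.length
  · rw [(hI.man h).length_eq, List.length_range]
  · rw [List.getD_eq_default _ _ (by omega)]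
    simp

theorem median_inNP (hG : ∀ f, Cnt.SharpP f → InNPP (fun p : List Bool × ℕ => f p.1 = p.2)) :
    InNPP (fun x : Inst × List ℕ × ℕ => Input x ∧ IsMedian x) := by
  -- the graph of `cle`
  have h1 : InNPP (fun z : (Inst × ℕ × ℕ) × ℕ => cle z.1.1 z.1.2.1 z.1.2.2 = z.2) := by
    have h2 := InNPP.comp (Q := fun p : List Bool × ℕ =>
      Cnt.strFn (fun y : Inst × ℕ × ℕ => cle y.1 y.2.1 y.2.2) p.1 = p.2)
      (f := fun z : (Inst × ℕ × ℕ) × ℕ => (bits z.1, z.2)) (hG _ sharpP_cle)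
      (Poly.pair (poly_bits.comp (Poly.fst Poly.id)) (Poly.snd Poly.id))
    simpa only [Cnt.strFn_bits] using h2
  -- `j ≤ s`
  have h2 : InNPP (fun x : Inst × List ℕ × ℕ =>
      ∃ v, cle x.1 0 x.1.1.length = v ∧ x.2.2 ≤ v) := by
    refine InNPP.exists (Q := fun y : (Inst × List ℕ × ℕ) × ℕ =>
      cle y.1.1 0 y.1.1.1.length = y.2 ∧ y.1.2.2 ≤ y.2) ?_
      (Polynomial.C 4 * Polynomial.X * Polynomial.X + Polynomial.C 5) ?_
    · refine InNPP.and ?_ ?_
      · exact InNPP.comp (f := fun y : (Inst × List ℕ × ℕ) × ℕ =>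
          ((y.1.1, 0, y.1.1.1.length), y.2)) h1 (by fun_prop)
      · exact inNPP_of_test (d := fun y => decide (y.1.2.2 ≤ y.2)) (by fun_prop)
          (fun y => by rw [decide_eq_true_eq])
    · rintro x v ⟨hv, h⟩
      simp only at hv h
      subst hv
      refine ⟨_, (sz_cle_le _ _ _).trans (eval_mono _ ?_), rfl, h⟩
      have := sz_prod x
      omega
  -- the condition for one man
  have h3 : InNPP (fun y : (Inst × List ℕ × ℕ) × ℕ => ∃ c : ℕ × ℕ,
      cle y.1.1 y.2 (rankM y.1.1 y.2 (y.1.2.1.getD y.2 0)) = c.1 ∧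
      cle y.1.1 y.2 (rankM y.1.1 y.2 (y.1.2.1.getD y.2 0) - 1) = c.2 ∧
      (decide (y.1.2.2 ≤ c.1) && (decide (rankM y.1.1 y.2 (y.1.2.1.getD y.2 0) = 0) ||
        decide (c.2 < y.1.2.2))) = true) := by
    refine InNPP.exists (Q := fun z : ((Inst × List ℕ × ℕ) × ℕ) × ℕ × ℕ =>
      cle z.1.1.1 z.1.2 (rankM z.1.1.1 z.1.2 (z.1.1.2.1.getD z.1.2 0)) = z.2.1 ∧
      cle z.1.1.1 z.1.2 (rankM z.1.1.1 z.1.2 (z.1.1.2.1.getD z.1.2 0) - 1) = z.2.2 ∧
      (decide (z.1.1.2.2 ≤ z.2.1) &&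
        (decide (rankM z.1.1.1 z.1.2 (z.1.1.2.1.getD z.1.2 0) = 0) ||
        decide (z.2.2 < z.1.1.2.2))) = true) ?_
      (Polynomial.C 2 * (Polynomial.C 4 * Polynomial.X * Polynomial.X + Polynomial.C 5) +
        Polynomial.C 1) ?_
    · refine InNPP.and ?_ (InNPP.and ?_ ?_)
      · exact InNPP.comp (f := fun z : ((Inst × List ℕ × ℕ) × ℕ) × ℕ × ℕ =>
          ((z.1.1.1, z.1.2, rankM z.1.1.1 z.1.2 (z.1.1.2.1.getD z.1.2 0)), z.2.1)) h1
          (by fun_prop)
      · exact InNPP.comp (f := fun z : ((Inst × List ℕ × ℕ) × ℕ) × ℕ × ℕ =>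
          ((z.1.1.1, z.1.2, rankM z.1.1.1 z.1.2 (z.1.1.2.1.getD z.1.2 0) - 1), z.2.2)) h1
          (by fun_prop)
      · exact inNPP_of_test (by fun_prop) (fun y => Iff.rfl)
    · rintro y ⟨v, v'⟩ ⟨hv, hv', h⟩
      simp only at hv hv' h
      subst hv hv'
      refine ⟨(cle y.1.1 y.2 (rankM y.1.1 y.2 (y.1.2.1.getD y.2 0)),
        cle y.1.1 y.2 (rankM y.1.1 y.2 (y.1.2.1.getD y.2 0) - 1)), ?_, rfl, rfl, h⟩
      rw [sz_pair]
      have s1 := sz_cle_le y.1.1 y.2 (rankM y.1.1 y.2 (y.1.2.1.getD y.2 0))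
      have s2 := sz_cle_le y.1.1 y.2 (rankM y.1.1 y.2 (y.1.2.1.getD y.2 0) - 1)
      have s3 : sz y.1.1 ≤ sz y := by
        have t1 := sz_prod y
        have t2 := sz_prod y.1
        omega
      have s4 := eval_mono (Polynomial.C 4 * Polynomial.X * Polynomial.X + Polynomial.C 5) s3
      simp only [sz_pair, Polynomial.eval_add, Polynomial.eval_mul, Polynomial.eval_C,
        Polynomial.eval_X] at *
      omega
  have h4 := InNPP.forall_mem h3 (l := fun x : Inst × List ℕ × ℕ => List.range x.1.1.length)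
    (by fun_prop)
  have h5 : InNPP (fun x : Inst × List ℕ × ℕ =>
      (validT x.1 && stableT x.1 x.2.1 && decide (1 ≤ x.2.2)) = true) :=
    inNPP_of_test (by fun_prop) (fun y => Iff.rfl)
  have h6 := InNPP.and h5 (InNPP.and h2 h4)
  refine cast (congrArg InNPP ?_) h6
  funext x
  obtain ⟨I, M, j⟩ := x
  apply propext
  simp only [Input, IsMedian, Bool.and_eq_true, validT_iff, stableT_iff, decide_eq_true_eq,
    exists_eq_left', List.mem_range, Bool.or_eq_true]
  constructor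
  · rintro ⟨⟨⟨hI, hM⟩, hj⟩, hs, hall⟩
    rw [cle_top hI] at hs
    refine ⟨⟨hI, hM, hj, hs⟩, (eq_alpha_iff hI hM.1 hj hs).2 fun m hm => ?_⟩
    obtain ⟨⟨v, v'⟩, e1, e2, h7, h8⟩ := hall m hm
    simp only at e1 e2 h7 h8
    rw [e1, e2]
    exact ⟨h7, by omega⟩
  · rintro ⟨⟨hI, hM, hj, hs⟩, he⟩
    refine ⟨⟨⟨hI, hM⟩, hj⟩, by rw [cle_top hI]; exact hs, fun m hm => ?_⟩
    have := (eq_alpha_iff hI hM.1 hj hs).1 he m hm
    refine ⟨(cle I m (rankM I m (M.getD m 0)), cle I m (rankM I m (M.getD m 0) - 1)), rfl, rfl,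
      this.1, ?_⟩
    have h7 := this.2
    simp only
    generalize cle I m (rankM I m (M.getD m 0) - 1) = a at *
    generalize rankM I m (M.getD m 0) = r at *
    omega

end Pool.Agent.NPC.Med
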