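import Pool.Agent.H578R2.Med.Fwd
import Pool.Agent.H578R2.Med.PP
import Pool.Agent.H687R2.IntPoly

/-!
# Counting the satisfying assignments of a formula by the down-sets of a poset of height 2
-/

namespace Pool.Agent.NPC.Med

open Finset

/-! ### blocks of copies -/

/-- the literals with a missing copy -/
def miss (s L : ℕ) (D : Finset ℕ) : Finset ℕ :=
  (range L).filter fun l => ∃ a < s, l * s + a ∉ D

theorem sum_miss (s : ℕ) : ∀ (L : ℕ) (g : Finset ℕ → ℕ),
    ∑ D ∈ (range (L * s)).powerset, g (miss s L D) =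
      ∑ A ∈ (range L).powerset, (2 ^ s - 1) ^ A.card * g A := by
  intro L
  induction L with
  | zero => intro g; simp [miss]
  | succ L ih =>
    intro g
    -- split the sum
    have h1 : ∑ D ∈ (range ((L + 1) * s)).powerset, g (miss s (L + 1) D) =
        ∑ p ∈ (range (L * s)).powerset ×ˢ (range s).powerset,
          g (if p.2 = range s then miss s L p.1 else insert L (miss s L p.1)) := by
      refine Finset.sum_nbij' (fun D => (D.filter (· < L * s),
        (range s).filter fun a => L * s + a ∈ D))
        (fun p => p.1 ∪ p.2.image fun a => L * s + a) ?_ ?_ ?_ ?_ ?_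
      · intro D hD
        rw [mem_product, mem_powerset, mem_powerset]
        constructor
        · intro x hx
          exact mem_range.2 (mem_filter.1 hx).2
        · exact filter_subset _ _
      · intro p hp
        rw [mem_product, mem_powerset, mem_powerset] at hp
        rw [mem_powerset]
        intro x hx
        rw [mem_union, mem_image] at hx
        rw [mem_range, Nat.succ_mul]
        rcases hx with hx | ⟨a, ha, rfl⟩
        · have := mem_range.1 (hp.1 hx)
          omega
        · have := mem_range.1 (hp.2 ha)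
          omega
      · intro D hD
        rw [mem_powerset] at hD
        ext x
        rw [mem_union, mem_filter, mem_image]
        constructor
        · rintro (h | ⟨a, ha, rfl⟩)
          · exact h.1
          · exact (mem_filter.1 ha).2
        · intro hx
          have h2 := mem_range.1 (hD hx)
          rw [Nat.succ_mul] at h2
          by_cases h3 : x < L * s
          · exact Or.inl ⟨hx, h3⟩
          · refine Or.inr ⟨x - L * s, ?_, by omega⟩
            rw [mem_filter, mem_range, show L * s + (x - L * s) = x by omega]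
            exact ⟨by omega, hx⟩
      · rintro ⟨D1, E⟩ hp
        rw [mem_product, mem_powerset, mem_powerset] at hp
        simp only at hp
        rw [Prod.mk.injEq]
        constructor
        · ext x
          rw [mem_filter, mem_union, mem_image]
          constructor
          · rintro ⟨h | ⟨a, _, rfl⟩, h2⟩
            · exact h
            · omega
          · intro h
            exact ⟨Or.inl h, mem_range.1 (hp.1 h)⟩
        · ext a
          rw [mem_filter, mem_union, mem_image, mem_range]
          constructor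
          · rintro ⟨h1, h | ⟨a', ha', h⟩⟩
            · have := mem_range.1 (hp.1 h)
              omega
            · have : a' = a := by omega
              exact this ▸ ha'
          · intro h
            exact ⟨mem_range.1 (hp.2 h), Or.inr ⟨a, h, rfl⟩⟩
      · intro D hD
        congr 1
        have hlow : miss s L (D.filter (· < L * s)) = miss s L D := by
          unfold miss
          apply filter_congr
          intro l hl
          have hl' := mem_range.1 hl
          refine exists_congr fun a => and_congr_right fun ha => ?_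
          rw [mem_filter, not_and_or]
          have : l * s + a < L * s := by
            have : (l + 1) * s ≤ L * s := Nat.mul_le_mul_right s (by omega)
            rw [Nat.succ_mul] at this
            omega
          tauto
        have hS : miss s (L + 1) D = if (∃ a < s, L * s + a ∉ D) then
            insert L (miss s L D) else miss s L D := by
          unfold miss
          rw [range_add_one, filter_insert]
        rw [hlow, hS]
        by_cases h : ∃ a < s, L * s + a ∉ D
        · rw [if_pos h, if_neg]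
          intro he
          simp only at he
          obtain ⟨a, ha, h3⟩ := h
          have : a ∈ (range s).filter fun a => L * s + a ∈ D := by rw [he]; exact mem_range.2 ha
          exact h3 (mem_filter.1 this).2
        · rw [if_neg h, if_pos]
          push Not at h
          exact filter_true_of_mem fun a ha => h a (mem_range.1 ha)
    rw [h1, sum_product]
    have h2 : ∀ D1 ∈ (range (L * s)).powerset, ∑ E ∈ (range s).powerset,
        g (if (D1, E).2 = range s then miss s L (D1, E).1 else insert L (miss s L (D1, E).1)) =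
        g (miss s L D1) + (2 ^ s - 1) * g (insert L (miss s L D1)) := by
      intro D1 _
      have hmem : range s ∈ (range s).powerset := mem_powerset.2 (Finset.Subset.refl _)
      rw [← add_sum_erase _ _ hmem]
      simp only [if_true]
      congr 1
      rw [sum_congr rfl (g := fun _ => g (insert L (miss s L D1)))]
      · rw [sum_const, card_erase_of_mem hmem, card_powerset, card_range, smul_eq_mul]
      · intro E hE
        rw [if_neg (ne_of_mem_erase hE)]
    rw [sum_congr rfl h2, sum_add_distrib, ← mul_sum, ih g, ih (fun A => g (insert L A)),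
      range_add_one, sum_powerset_insert (by simp), mul_sum]
    congr 1
    refine sum_congr rfl fun A hA => ?_
    have hLA : L ∉ A := fun h => by
      have := mem_range.1 ((mem_powerset.1 hA) h)
      omega
    rw [card_insert_of_notMem hLA, pow_succ]
    ring

/-! ### the poset -/

/-- the required bottoms of a clause: all the copies of its literals -/
def topOf (s : ℕ) (C : List ℕ) : List ℕ := C.flatMap fun l => (List.range s).map fun a => l * s + a

/-- the poset: `s` copies of each of the `L` literals, `t` copies of each clause -/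
def Qc (L s t : ℕ) (cl : List (List ℕ)) : ℕ × List (List ℕ) :=
  (L * s, cl.flatMap fun C => List.replicate t (topOf s C))

theorem countP_flatMap_replicate (p : List ℕ → Bool) (t : ℕ) (F : List ℕ → List ℕ)
    (cl : List (List ℕ)) :
    (cl.flatMap fun C => List.replicate t (F C)).countP p = t * cl.countP fun C => p (F C) := by
  induction cl with
  | nil => simp
  | cons C cl ih =>
    rw [List.flatMap_cons, List.countP_append, ih, List.countP_cons, List.countP_replicate,
      mul_add, add_comm]
    congr 1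
    split_ifs <;> simp

/-- the number of clauses not hit by `A` -/
def bad (cl : List (List ℕ)) (A : Finset ℕ) : ℕ := cl.countP fun C => decide (∀ l ∈ C, l ∉ A)

theorem cnt_Qc {L s t : ℕ} {cl : List (List ℕ)} (hcl : ∀ C ∈ cl, ∀ l ∈ C, l < L) :
    cnt (Qc L s t cl) = ∑ A ∈ (range L).powerset, (2 ^ s - 1) ^ A.card * 2 ^ (t * bad cl A) := by
  rw [← sum_miss s L fun A => 2 ^ (t * bad cl A)]
  unfold cnt Qc
  simp only
  refine sum_congr rfl fun D _ => ?_
  rw [countP_flatMap_replicate]
  congr 2
  unfold bad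
  apply List.countP_congr
  intro C hC
  rw [decide_eq_true_eq, decide_eq_true_eq]
  unfold topOf miss
  simp only [List.mem_flatMap, List.mem_map, List.mem_range, mem_filter, mem_range, not_and,
    not_exists, not_not]
  constructor
  · intro h l hl _ a ha
    exact h _ ⟨l, hl, a, ha, rfl⟩
  · rintro h u ⟨l, hl, a, ha, rfl⟩
    exact h l hl (hcl C hC l hl) a ha

/-- all clauses are hit -/
def Hit (cl : List (List ℕ)) (A : Finset ℕ) : Prop := ∀ C ∈ cl, ∃ l ∈ C, l ∈ A

theorem bad_eq_zero {cl : List (List ℕ)} {A : Finset ℕ} : bad cl A = 0 ↔ Hit cl A := by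
  unfold bad Hit
  rw [List.countP_eq_zero]
  simp only [decide_eq_true_eq, not_forall, not_not, exists_prop]

open Classical in
theorem cnt_mod {L s t : ℕ} {cl : List (List ℕ)} (hcl : ∀ C ∈ cl, ∀ l ∈ C, l < L)
    (ht : L * s < t) :
    cnt (Qc L s t cl) % 2 ^ t =
      ∑ A ∈ (range L).powerset.filter (Hit cl), (2 ^ s - 1) ^ A.card := by
  rw [cnt_Qc hcl, ← sum_filter_add_sum_filter_not _ (Hit cl)]
  have h1 : ∑ A ∈ (range L).powerset.filter (Hit cl), (2 ^ s - 1) ^ A.card * 2 ^ (t * bad cl A) =
      ∑ A ∈ (range L).powerset.filter (Hit cl), (2 ^ s - 1) ^ A.card := by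
    refine sum_congr rfl fun A hA => ?_
    rw [bad_eq_zero.2 (mem_filter.1 hA).2]
    simp
  have h2 : 2 ^ t ∣ ∑ A ∈ (range L).powerset.filter (fun A => ¬ Hit cl A),
      (2 ^ s - 1) ^ A.card * 2 ^ (t * bad cl A) := by
    refine dvd_sum fun A hA => ?_
    have h3 : bad cl A ≠ 0 := fun h => (mem_filter.1 hA).2 (bad_eq_zero.1 h)
    exact Dvd.dvd.mul_left (pow_dvd_pow 2 (by
      have : 1 ≤ bad cl A := Nat.one_le_iff_ne_zero.2 h3
      nlinarith)) _
  obtain ⟨c, hc⟩ := h2
  rw [h1, hc, Nat.add_mul_mod_self_left, Nat.mod_eq_of_lt]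
  calc ∑ A ∈ (range L).powerset.filter (Hit cl), (2 ^ s - 1) ^ A.card
      ≤ ∑ A ∈ (range L).powerset, (2 ^ s - 1) ^ A.card :=
        sum_le_sum_of_subset (filter_subset _ _)
    _ = ∑ A ∈ (range L).powerset, (2 ^ s - 1) ^ A.card * 1 ^ ((range L).card - A.card) := by
        simp
    _ = ((2 ^ s - 1) + 1) ^ (range L).card := sum_pow_mul_eq_add_pow _ _ _
    _ = 2 ^ (L * s) := by
        rw [card_range, Nat.sub_add_cancel Nat.one_le_two_pow, ← pow_mul, mul_comm]
    _ < 2 ^ t := Nat.pow_lt_pow_right (by norm_num) ht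

/-- the pair clauses -/
def pairsC (n : ℕ) : List (List ℕ) := (List.range n).map fun k => [2 * k, 2 * k + 1]

theorem hit_pairs {n : ℕ} {A : Finset ℕ} : Hit (pairsC n) A ↔
    ∀ k < n, 2 * k ∈ A ∨ 2 * k + 1 ∈ A := by
  unfold Hit pairsC
  simp

theorem hit_append {c d : List (List ℕ)} {A : Finset ℕ} : Hit (c ++ d) A ↔ Hit c A ∧ Hit d A := by
  unfold Hit
  simp only [List.mem_append]
  constructor
  · intro h
    exact ⟨fun C hC => h C (Or.inl hC), fun C hC => h C (Or.inr hC)⟩
  · rintro ⟨h1, h2⟩ C (hC | hC)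
    · exact h1 C hC
    · exact h2 C hC

theorem card_ge_of_hit {n : ℕ} {A : Finset ℕ} (h : Hit (pairsC n) A) : n ≤ A.card := by
  rw [hit_pairs] at h
  have h1 : range n ⊆ A.image (· / 2) := by
    intro k hk
    have hk' := mem_range.1 hk
    rw [mem_image]
    rcases h k hk' with h | h
    · exact ⟨_, h, by omega⟩
    · exact ⟨_, h, by omega⟩
  have h2 := card_le_card h1
  rw [card_range] at h2
  exact h2.trans card_image_le

open Classical in
theorem extract {n B : ℕ} {F : Finset (Finset ℕ)} (hF : ∀ A ∈ F, n ≤ A.card) (hB : 0 < B)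
    (hlt : (F.filter fun A => A.card = n).card < B) :
    (∑ A ∈ F, B ^ A.card) / B ^ n % B = (F.filter fun A => A.card = n).card := by
  have h1 : ∑ A ∈ F, B ^ A.card = B ^ n * ∑ A ∈ F, B ^ (A.card - n) := by
    rw [mul_sum]
    refine sum_congr rfl fun A hA => ?_
    rw [← pow_add]
    congr 1
    have := hF A hA
    omega
  rw [h1, Nat.mul_div_cancel_left _ (by positivity),
    ← sum_filter_add_sum_filter_not F (fun A => A.card = n)]
  have h2 : ∑ A ∈ F.filter (fun A => A.card = n), B ^ (A.card - n) =
      (F.filter fun A => A.card = n).card := by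
    rw [card_eq_sum_ones]
    refine sum_congr rfl fun A hA => ?_
    rw [(mem_filter.1 hA).2, Nat.sub_self, pow_zero]
  have h3 : B ∣ ∑ A ∈ F.filter (fun A => ¬ A.card = n), B ^ (A.card - n) := by
    refine dvd_sum fun A hA => ?_
    have h4 := hF A (mem_filter.1 hA).1
    have h5 := (mem_filter.1 hA).2
    exact dvd_pow_self B (by omega)
  obtain ⟨c, hc⟩ := h3
  rw [h2, hc, Nat.add_mul_mod_self_left, Nat.mod_eq_of_lt hlt]

/-! ### formulas -/

/-- the occurrences of the variables -/
def vs (φ : Cnt.CNF ℕ) : List ℕ := φ.flatten.map Prod.snd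

/-- the variables, without repetition -/
def vl (φ : Cnt.CNF ℕ) : List ℕ :=
  ((List.range (vs φ).length).filter fun i => decide ((vs φ).idxOf ((vs φ).getD i 0) = i)).map
    fun i => (vs φ).getD i 0

/-- the number of a literal -/
def lit (φ : Cnt.CNF ℕ) (x : Bool × ℕ) : ℕ := 2 * (vl φ).idxOf x.2 + (bif x.1 then 1 else 0)

/-- the clauses, with the pair clauses -/
def cls (φ : Cnt.CNF ℕ) : List (List ℕ) :=
  (φ.map fun C => C.map (lit φ)) ++ pairsC (vl φ).length

theorem mem_vl {φ : Cnt.CNF ℕ} {v : ℕ} : v ∈ vl φ ↔ v ∈ vs φ := by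
  unfold vl
  rw [List.mem_map]
  constructor
  · rintro ⟨i, hi, rfl⟩
    rw [List.mem_filter, List.mem_range] at hi
    rw [List.getD_eq_getElem _ _ hi.1]
    exact List.getElem_mem _
  · intro hv
    refine ⟨(vs φ).idxOf v, ?_, getD_idxOf hv⟩
    rw [List.mem_filter, List.mem_range, decide_eq_true_eq, getD_idxOf hv]
    exact ⟨List.idxOf_lt_length_iff.2 hv, rfl⟩

theorem nodup_vl (φ : Cnt.CNF ℕ) : (vl φ).Nodup := by
  unfold vl
  refine List.Nodup.map_on ?_ (List.nodup_range.filter _)
  intro i hi j hj h
  rw [List.mem_filter, decide_eq_true_eq] at hi hj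
  rw [← hi.2, h, hj.2]

theorem vars_eq (φ : Cnt.CNF ℕ) : Cnt.vars φ = (vl φ).toFinset := by
  ext v
  rw [List.mem_toFinset, mem_vl]
  unfold Cnt.vars vs
  rw [List.mem_toFinset]

theorem card_vars (φ : Cnt.CNF ℕ) : (Cnt.vars φ).card = (vl φ).length := by
  rw [vars_eq, List.toFinset_card_of_nodup (nodup_vl φ)]

theorem cls_lt {φ : Cnt.CNF ℕ} : ∀ C ∈ cls φ, ∀ l ∈ C, l < 2 * (vl φ).length := by
  intro C hC l hl
  unfold cls pairsC at hC
  rw [List.mem_append, List.mem_map, List.mem_map] at hC
  rcases hC with ⟨C', hC', rfl⟩ | ⟨k, hk, rfl⟩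
  · rw [List.mem_map] at hl
    obtain ⟨⟨b, v⟩, hx, rfl⟩ := hl
    have hv : v ∈ vl φ := by
      rw [mem_vl]
      unfold vs
      rw [List.mem_map]
      exact ⟨(b, v), List.mem_flatten.2 ⟨C', hC', hx⟩, rfl⟩
    have := List.idxOf_lt_length_iff.2 hv
    unfold lit
    simp only
    cases b <;> simp <;> omega
  · have := List.mem_range.1 hk
    simp only [List.mem_cons, List.not_mem_nil, or_false] at hl
    omega

/-- the set of the true literals -/
def tr (φ : Cnt.CNF ℕ) (S : Finset ℕ) : Finset ℕ :=
  (range (vl φ).length).image fun k => 2 * k + if (vl φ).getD k 0 ∈ S then 1 else 0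

theorem mem_tr {φ : Cnt.CNF ℕ} {S : Finset ℕ} {x : ℕ} : x ∈ tr φ S ↔
    x / 2 < (vl φ).length ∧ (x % 2 = 1 ↔ (vl φ).getD (x / 2) 0 ∈ S) := by
  unfold tr
  rw [mem_image]
  constructor
  · rintro ⟨k, hk, rfl⟩
    have hk' := mem_range.1 hk
    by_cases h : (vl φ).getD k 0 ∈ S
    · rw [if_pos h, show (2 * k + 1) / 2 = k by omega]
      exact ⟨hk', ⟨fun _ => h, fun _ => by omega⟩⟩
    · rw [if_neg h, show (2 * k + 0) / 2 = k by omega]
      exact ⟨hk', ⟨fun h' => by omega, fun h' => absurd h' h⟩⟩
  · rintro ⟨h1, h2⟩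
    refine ⟨x / 2, mem_range.2 h1, ?_⟩
    by_cases h : (vl φ).getD (x / 2) 0 ∈ S
    · rw [if_pos h]
      have := h2.2 h
      omega
    · rw [if_neg h]
      have : ¬ x % 2 = 1 := fun h' => h (h2.1 h')
      omega

theorem card_tr (φ : Cnt.CNF ℕ) (S : Finset ℕ) : (tr φ S).card = (vl φ).length := by
  unfold tr
  rw [card_image_of_injOn, card_range]
  intro a _ b _ h
  simp only at h
  split_ifs at h <;> omega

theorem lit_mem_tr {φ : Cnt.CNF ℕ} {S : Finset ℕ} {b : Bool} {v : ℕ} (hv : v ∈ vl φ) :
    lit φ (b, v) ∈ tr φ S ↔ b = decide (v ∈ S) := by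
  have h1 := List.idxOf_lt_length_iff.2 hv
  have h2 : lit φ (b, v) / 2 = (vl φ).idxOf v := by
    unfold lit
    cases b <;> simp <;> omega
  have h3 : lit φ (b, v) % 2 = 1 ↔ b = true := by
    unfold lit
    cases b <;> simp <;> omega
  rw [mem_tr, h2, h3, getD_idxOf hv]
  by_cases h : v ∈ S
  · simp [h, h1]
  · simp [h, h1]

theorem hit_tr {φ : Cnt.CNF ℕ} {S : Finset ℕ} : Hit (cls φ) (tr φ S) ↔ Cnt.SatBy S φ := by
  unfold cls
  rw [hit_append]
  have h1 : Hit (pairsC (vl φ).length) (tr φ S) := by
    rw [hit_pairs]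
    intro k hk
    rw [mem_tr, mem_tr, show 2 * k / 2 = k by omega, show (2 * k + 1) / 2 = k by omega]
    by_cases h : (vl φ).getD k 0 ∈ S
    · exact Or.inr ⟨hk, fun _ => h, fun _ => by omega⟩
    · exact Or.inl ⟨hk, fun h' => by omega, fun h' => absurd h' h⟩
  rw [and_iff_left h1]
  unfold Hit Cnt.SatBy
  simp only [List.mem_map, forall_exists_index, and_imp, forall_apply_eq_imp_iff₂]
  refine forall₂_congr fun C hC => ?_
  have hmem : ∀ x ∈ C, x.2 ∈ vl φ := by
    intro x hx
    rw [mem_vl]
    unfold vs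
    rw [List.mem_map]
    exact ⟨x, List.mem_flatten.2 ⟨C, hC, hx⟩, rfl⟩
  constructor
  · rintro ⟨l, ⟨x, hx, rfl⟩, h⟩
    exact ⟨x, hx, (lit_mem_tr (hmem x hx)).1 h⟩
  · rintro ⟨x, hx, h⟩
    exact ⟨_, ⟨x, hx, rfl⟩, (lit_mem_tr (hmem x hx)).2 h⟩

open Classical in
theorem satCount_eq (φ : Cnt.CNF ℕ) : Cnt.satCount φ =
    (((range (2 * (vl φ).length)).powerset.filter (Hit (cls φ))).filter
      fun A => A.card = (vl φ).length).card := by
  unfold Cnt.satCount
  refine Finset.card_bij (fun S _ => tr φ S) ?_ ?_ ?_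
  · intro S hS
    rw [mem_filter] at hS
    rw [mem_filter, mem_filter, mem_powerset]
    refine ⟨⟨?_, hit_tr.2 hS.2⟩, card_tr φ S⟩
    intro x hx
    rw [mem_tr] at hx
    rw [mem_range]
    omega
  · intro S hS S' hS' h
    rw [mem_filter, mem_powerset] at hS hS'
    have key : ∀ S : Finset ℕ, ∀ v ∈ vl φ, v ∈ S ↔ lit φ (true, v) ∈ tr φ S := by
      intro S v hv
      rw [lit_mem_tr hv]
      simp
    ext v
    constructor
    · intro hv
      have h1 : v ∈ vl φ := by
        have := hS.1 hv
        rwa [vars_eq, List.mem_toFinset] at this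
      rw [key S' v h1, ← h]
      exact (key S v h1).1 hv
    · intro hv
      have h1 : v ∈ vl φ := by
        have := hS'.1 hv
        rwa [vars_eq, List.mem_toFinset] at this
      rw [key S v h1, h]
      exact (key S' v h1).1 hv
  · intro A hA
    rw [mem_filter, mem_filter, mem_powerset] at hA
    obtain ⟨⟨h1, h2⟩, h3⟩ := hA
    have hp : Hit (pairsC (vl φ).length) A := by
      unfold cls at h2
      exact (hit_append.1 h2).2
    have hp' := hit_pairs.1 hp
    -- exactly one literal of each variable
    have himg : A.image (· / 2) = range (vl φ).length := by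
      ext k
      rw [mem_image, mem_range]
      constructor
      · rintro ⟨x, hx, rfl⟩
        have := mem_range.1 (h1 hx)
        omega
      · intro hk
        rcases hp' k hk with h | h
        · exact ⟨_, h, by omega⟩
        · exact ⟨_, h, by omega⟩
    have hinj : Set.InjOn (· / 2) (A : Set ℕ) := by
      apply card_image_iff.1
      rw [himg, card_range, h3]
    let S : Finset ℕ := ((range (vl φ).length).filter fun k => 2 * k + 1 ∈ A).image
      fun k => (vl φ).getD k 0
    have hS : ∀ k < (vl φ).length, ((vl φ).getD k 0 ∈ S ↔ 2 * k + 1 ∈ A) := by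
      intro k hk
      simp only [S, mem_image, mem_filter, mem_range]
      constructor
      · rintro ⟨k', ⟨hk', hA'⟩, he⟩
        have : k' = k := by
          rw [← idxOf_getD (nodup_vl φ) hk', ← idxOf_getD (nodup_vl φ) hk, he]
        exact this ▸ hA'
      · intro h
        exact ⟨k, ⟨hk, h⟩, rfl⟩
    have hA : tr φ S = A := by
      ext x
      rw [mem_tr]
      constructor
      · rintro ⟨hx, hx2⟩
        rw [hS _ hx] at hx2
        by_cases hodd : x % 2 = 1
        · have := hx2.1 hodd
          rwa [show 2 * (x / 2) + 1 = x by omega] at this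
        · have h4 : ¬ 2 * (x / 2) + 1 ∈ A := fun h => hodd (hx2.2 h)
          have := (hp' _ hx).resolve_right h4
          rwa [show 2 * (x / 2) = x by omega] at this
      · intro hx
        have hxl : x / 2 < (vl φ).length := by
          have := mem_range.1 (h1 hx)
          omega
        refine ⟨hxl, ?_⟩
        rw [hS _ hxl]
        constructor
        · intro hodd
          rwa [show 2 * (x / 2) + 1 = x by omega]
        · intro h
          have := hinj (show x ∈ (A : Set ℕ) from hx) (show 2 * (x / 2) + 1 ∈ (A : Set ℕ) from h)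
            (by simp only; omega)
          omega
    refine ⟨S, ?_, hA⟩
    rw [mem_filter, mem_powerset]
    refine ⟨?_, ?_⟩
    · intro v hv
      simp only [S, mem_image, mem_filter, mem_range] at hv
      obtain ⟨k, ⟨hk, _⟩, rfl⟩ := hv
      rw [vars_eq, List.mem_toFinset, List.getD_eq_getElem _ _ hk]
      exact List.getElem_mem _
    · rw [← hit_tr, hA]
      exact h2

theorem satCount_le (φ : Cnt.CNF ℕ) : Cnt.satCount φ ≤ 2 ^ (vl φ).length := by
  unfold Cnt.satCount
  rw [← card_vars, ← card_powerset]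
  exact card_filter_le _ _

/-- the poset of a formula -/
def Qf (φ : Cnt.CNF ℕ) : ℕ × List (List ℕ) :=
  Qc (2 * (vl φ).length) ((vl φ).length + 2) (2 * (vl φ).length * ((vl φ).length + 2) + 1) (cls φ)

/-- the number of satisfying assignments in terms of the number of down-sets -/
def postf (x : Cnt.CNF ℕ × ℕ) : ℕ :=
  x.2 % 2 ^ (2 * (vl x.1).length * ((vl x.1).length + 2) + 1) /
    (2 ^ ((vl x.1).length + 2) - 1) ^ (vl x.1).length % (2 ^ ((vl x.1).length + 2) - 1)

theorem satCount_post (φ : Cnt.CNF ℕ) : Cnt.satCount φ = postf (φ, cnt (Qf φ)) := by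
  classical
  unfold postf Qf
  simp only
  rw [cnt_mod cls_lt (by omega)]
  have hB : 0 < 2 ^ ((vl φ).length + 2) - 1 := by
    have : 2 ^ 1 ≤ 2 ^ ((vl φ).length + 2) := Nat.pow_le_pow_right (by norm_num) (by omega)
    omega
  rw [extract (fun A hA => ?_) hB]
  · rw [satCount_eq]
  · rw [← satCount_eq]
    have h1 := satCount_le φ
    have h2 : 2 ^ ((vl φ).length + 2) = 4 * 2 ^ (vl φ).length := by rw [pow_add]; ring
    have h3 : 0 < 2 ^ (vl φ).length := by positivity
    omega
  · apply card_ge_of_hit
    have := (mem_filter.1 hA).2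
    unfold cls at this
    exact (hit_append.1 this).2

/-! ### polynomial time -/

theorem poly_vs : Poly vs := by
  unfold vs
  exact Poly.map (l := fun φ : Cnt.CNF ℕ => φ.flatten)
    (F := fun (_ : Cnt.CNF ℕ) (x : Bool × ℕ) => x.2) (Poly.flatten Poly.id)
    (Poly.snd (Poly.snd Poly.id))

theorem poly_vl : Poly vl := by
  unfold vl
  have h1 : Poly (fun φ : Cnt.CNF ℕ => List.range (vs φ).length) := (UPoly.length poly_vs).range
  have h2 : Poly (fun p : Cnt.CNF ℕ × ℕ => vs p.1) := poly_vs.comp (Poly.fst Poly.id)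
  refine Poly.map (Poly.filter h1 ?_) ?_
  · fun_prop
  · fun_prop

theorem poly_lit : Poly (fun p : Cnt.CNF ℕ × (Bool × ℕ) => lit p.1 p.2) := by
  unfold lit
  have h2 : Poly (fun p : Cnt.CNF ℕ × (Bool × ℕ) => vl p.1) := poly_vl.comp (Poly.fst Poly.id)
  fun_prop

theorem poly_cls : Poly cls := by
  unfold cls pairsC
  refine Poly.append (Poly.map (l := fun φ : Cnt.CNF ℕ => φ)
    (F := fun (φ : Cnt.CNF ℕ) (C : List (Bool × ℕ)) => C.map (lit φ)) Poly.id ?_)
    (Poly.map (UPoly.length poly_vl).range (by fun_prop))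
  refine Poly.map (l := fun p : Cnt.CNF ℕ × List (Bool × ℕ) => p.2)
    (F := fun (p : Cnt.CNF ℕ × List (Bool × ℕ)) (x : Bool × ℕ) => lit p.1 x)
    (Poly.snd Poly.id) ?_
  have h := poly_lit.comp (f := fun q : (Cnt.CNF ℕ × List (Bool × ℕ)) × (Bool × ℕ) =>
    (q.1.1, q.2)) (Poly.pair (Poly.fst (Poly.fst Poly.id)) (Poly.snd Poly.id))
  exact h

theorem uPoly_n : UPoly (fun φ : Cnt.CNF ℕ => (vl φ).length) := UPoly.length poly_vl

theorem uPoly_s : UPoly (fun φ : Cnt.CNF ℕ => (vl φ).length + 2) := UPoly.add uPoly_n (UPoly.const 2)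

theorem uPoly_t : UPoly (fun φ : Cnt.CNF ℕ =>
    2 * (vl φ).length * ((vl φ).length + 2) + 1) :=
  UPoly.add (UPoly.mul (UPoly.mul (UPoly.const 2) uPoly_n) uPoly_s) (UPoly.const 1)

theorem poly_Qf : Poly Qf ∧ UPoly (fun φ => (Qf φ).1) := by
  have hb : UPoly (fun φ => (Qf φ).1) :=
    UPoly.mul (UPoly.mul (UPoly.const 2) uPoly_n) uPoly_s
  refine ⟨Poly.pair hb.toPoly ?_, hb⟩
  refine Poly.flatMap (F := fun φ C => List.replicate (2 * (vl φ).length *
    ((vl φ).length + 2) + 1) (topOf ((vl φ).length + 2) C)) poly_cls ?_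
  refine Cnt.UPoly.replicate (uPoly_t.comp (Poly.fst Poly.id)) ?_
  unfold topOf
  have hs : Poly (fun p : Cnt.CNF ℕ × List ℕ => List.range ((vl p.1).length + 2)) :=
    uPoly_s.range.comp (Poly.fst Poly.id)
  have hs' : Poly (fun p : (Cnt.CNF ℕ × List ℕ) × ℕ => List.range ((vl p.1.1).length + 2)) :=
    uPoly_s.range.comp (Poly.fst (Poly.fst Poly.id))
  have hn : Poly (fun p : ((Cnt.CNF ℕ × List ℕ) × ℕ) × ℕ => (vl p.1.1.1).length + 2) :=
    uPoly_s.toPoly.comp (Poly.fst (Poly.fst (Poly.fst Poly.id)))
  refine Poly.flatMap (Poly.snd Poly.id) (Poly.map hs' ?_)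
  fun_prop

theorem poly_postf : Poly postf := by
  unfold postf
  have hn := uPoly_n.comp (f := fun x : Cnt.CNF ℕ × ℕ => x.1) (Poly.fst Poly.id)
  have hs := poly_two_pow (uPoly_s.comp (f := fun x : Cnt.CNF ℕ × ℕ => x.1) (Poly.fst Poly.id))
  have ht := poly_two_pow (uPoly_t.comp (f := fun x : Cnt.CNF ℕ × ℕ => x.1) (Poly.fst Poly.id))
  have hB : Poly (fun x : Cnt.CNF ℕ × ℕ => 2 ^ ((vl x.1).length + 2) - 1) :=
    Poly.sub hs (Poly.const 1)
  exact Poly.mod (Poly.div (Poly.mod (Poly.snd Poly.id) ht) (Poly.npow hB hn)) hB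

theorem cntHard : CntHard := by
  refine ⟨Qf, postf, poly_Qf.1, poly_Qf.2, poly_postf, ?_, satCount_post⟩
  intro φ t ht u hu
  unfold Qf Qc at ht ⊢
  simp only [List.mem_flatMap, List.mem_replicate] at ht ⊢
  obtain ⟨C, hC, _, rfl⟩ := ht
  unfold topOf at hu
  simp only [List.mem_flatMap, List.mem_map, List.mem_range] at hu
  obtain ⟨l, hl, a, ha, rfl⟩ := hu
  have h1 := cls_lt C hC l hl
  have h2 : (l + 1) * ((vl φ).length + 2) ≤ 2 * (vl φ).length * ((vl φ).length + 2) :=
    Nat.mul_le_mul_right _ (by omega)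
  rw [Nat.succ_mul] at h2
  omega

end Pool.Agent.NPC.Med
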