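import Pool.Agent.H578R2.Med.Build

/-!
# Counting: the stable matchings of `build P`, and the generalised medians
-/

namespace Pool.Agent.NPC.Med

open Classical in
/-- the down-sets -/
noncomputable def downs (P : ℕ × List (List ℕ)) : Finset (Finset ℕ) :=
  (Finset.range (nel P)).powerset.filter (Closed P)

theorem mem_downs {P : ℕ × List (List ℕ)} {S : Finset ℕ} :
    S ∈ downs P ↔ S ⊆ Finset.range (nel P) ∧ Closed P S := by
  simp only [downs, Finset.mem_filter, Finset.mem_powerset]

theorem matchOf_inj {P : ℕ × List (List ℕ)} {S S' : Finset ℕ} (h : S ⊆ Finset.range (nel P))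
    (h' : S' ⊆ Finset.range (nel P)) (he : matchOf P S = matchOf P S') : S = S' := by
  have hkey : ∀ S : Finset ℕ, ∀ x < nel P, x ∈ S ↔ (matchOf P S).getD (2 * x) 0 = 2 * x + 1 := by
    intro S x hx
    rw [matchOf_getD (by omega)]
    unfold sw
    rw [show 2 * x / 2 = x by omega, if_pos (show 2 * x % 2 = 0 by omega)]
    by_cases hxS : x ∈ S
    · simp [hxS]
    · simp [hxS]
  ext x
  constructor
  · intro hx
    have hx' := Finset.mem_range.1 (h hx)
    rw [hkey S' x hx', ← he]
    exact (hkey S x hx').1 hx
  · intro hx
    have hx' := Finset.mem_range.1 (h' hx)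
    rw [hkey S x hx', he]
    exact (hkey S' x hx').1 hx

section

variable {P : ℕ × List (List ℕ)} (hP : OK P)

include hP in
theorem stables_build : stables (build P) = (downs P).image (matchOf P) := by
  ext M
  rw [mem_stables, stable_build_iff hP, Finset.mem_image]
  constructor
  · rintro ⟨S, h1, h2, rfl⟩
    exact ⟨S, mem_downs.2 ⟨h1, h2⟩, rfl⟩
  · rintro ⟨S, h, rfl⟩
    have := mem_downs.1 h
    exact ⟨S, this.1, this.2, rfl⟩

theorem injOn_matchOf : Set.InjOn (matchOf P) (downs P : Set (Finset ℕ)) := by
  intro S hS S' hS' h
  exact matchOf_inj (mem_downs.1 hS).1 (mem_downs.1 hS').1 h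

include hP in
theorem card_stables_build : (stables (build P)).card = (downs P).card := by
  rw [stables_build hP, Finset.card_image_of_injOn injOn_matchOf]

/-- the number of down-sets without `x` -/
noncomputable def cw (P : ℕ × List (List ℕ)) (x : ℕ) : ℕ :=
  ((downs P).filter fun S => x ∉ S).card

theorem rank_state {S : Finset ℕ} {i : ℕ} (hi : i < 2 * nel P) :
    rankM (build P) i ((matchOf P S).getD i 0) = if i / 2 ∈ S then
      rankM (build P) i (if i % 2 = 0 then i + 1 else i - 1) else 0 := by
  rw [matchOf_getD hi]
  unfold sw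
  split_ifs with h1 h2
  · rfl
  · rfl
  · exact rankM_self hi

theorem rank_pos {i : ℕ} (hi : i < 2 * nel P) :
    0 < rankM (build P) i (if i % 2 = 0 then i + 1 else i - 1) := by
  rw [Nat.pos_iff_ne_zero]
  intro h
  have h1 := rankM_self (P := P) hi
  have hmem : i ∈ keyM P i := by
    unfold keyM
    split_ifs <;> simp
  have hne : (if i % 2 = 0 then i + 1 else i - 1) ≠ i := by split_ifs <;> omega
  rw [rankM_build hi] at h h1
  have hm1 : i ∈ full (2 * nel P) (keyM P i) := List.mem_append_left _ hmem
  have hm2 : (if i % 2 = 0 then i + 1 else i - 1) ∈ full (2 * nel P) (keyM P i) := by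
    apply List.mem_append_left
    unfold keyM
    split_ifs <;> simp
  have h3 := getD_idxOf hm1
  have h4 := getD_idxOf hm2
  rw [h1] at h3
  rw [h] at h4
  exact hne (h4.symm.trans h3)

include hP in
theorem cle_build {i : ℕ} (hi : i < 2 * nel P) (r : ℕ) : cle (build P) i r =
    if r < rankM (build P) i (if i % 2 = 0 then i + 1 else i - 1) then cw P (i / 2)
    else (downs P).card := by
  unfold cle
  rw [stables_build hP, Finset.filter_image,
    Finset.card_image_of_injOn (injOn_matchOf.mono (by
      intro S hS
      exact (Finset.mem_filter.1 hS).1))]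
  by_cases h : r < rankM (build P) i (if i % 2 = 0 then i + 1 else i - 1)
  · rw [if_pos h]
    unfold cw
    congr 1
    apply Finset.filter_congr
    intro S _
    rw [rank_state hi]
    by_cases h2 : i / 2 ∈ S
    · rw [if_pos h2]
      simp only [h2, not_true_eq_false, iff_false]
      omega
    · rw [if_neg h2]
      simp [h2]
  · rw [if_neg h]
    congr 1
    apply Finset.filter_true_of_mem
    intro S _
    rw [rank_state hi]
    by_cases h2 : i / 2 ∈ S
    · rw [if_pos h2]
      omega
    · rw [if_neg h2]
      exact Nat.zero_le _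

include hP in
/-- the generalised medians of `build P` -/
theorem alpha_build {j : ℕ} (h1 : 1 ≤ j) (h2 : j ≤ (stables (build P)).card) :
    Stable (build P) (alpha (build P) j) ∧
      alpha (build P) j = matchOf P ((Finset.range (nel P)).filter fun x => cw P x < j) := by
  have hS : Closed P ((Finset.range (nel P)).filter fun x => cw P x < j) := by
    intro x hx u hu
    rw [Finset.mem_filter, Finset.mem_range] at hx ⊢
    have hr := Rq.lt hP hu
    refine ⟨by unfold nel; omega, lt_of_le_of_lt ?_ hx.2⟩
    unfold cw
    apply Finset.card_le_card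
    intro T hT
    rw [Finset.mem_filter] at hT ⊢
    exact ⟨hT.1, fun hxT => hT.2 ((mem_downs.1 hT.1).2 x hxT u hu)⟩
  have hst := stable_matchOf hP hS
  have he : alpha (build P) j = matchOf P ((Finset.range (nel P)).filter fun x => cw P x < j) := by
    symm
    rw [eq_alpha_iff (build_valid hP) hst.1 h1 h2]
    intro m hm
    rw [build_length] at hm
    rw [rank_state hm]
    have hpos := rank_pos (P := P) hm
    by_cases hx : m / 2 ∈ (Finset.range (nel P)).filter fun x => cw P x < j
    · rw [if_pos hx]
      rw [Finset.mem_filter] at hx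
      constructor
      · rw [cle_build hP hm, if_neg (by omega), ← card_stables_build hP]
        exact h2
      · rintro ⟨_, h⟩
        rw [cle_build hP hm, if_pos (by omega)] at h
        omega
    · rw [if_neg hx]
      rw [Finset.mem_filter, Finset.mem_range, not_and] at hx
      refine ⟨?_, fun h => by omega⟩
      rw [cle_build hP hm, if_pos (by omega)]
      have := hx (by omega)
      omega
  exact ⟨he ▸ hst, he⟩

end

/-! ### the number of down-sets -/

/-- The number of down-sets of the poset of height 2 with bottoms `0, …, b - 1` and one top for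
each list in the second component, lying above the bottoms in the list. -/
def cnt (P : ℕ × List (List ℕ)) : ℕ :=
  ∑ D ∈ (Finset.range P.1).powerset, 2 ^ (P.2.countP fun t => decide (∀ u ∈ t, u ∈ D))

/-- one more bottom `b`, and `K` tops above it -/
def ext (P : ℕ × List (List ℕ)) (K : ℕ) : ℕ × List (List ℕ) :=
  (P.1 + 1, P.2 ++ List.replicate K [P.1])

theorem ext_ok {P : ℕ × List (List ℕ)} (hP : OK P) (K : ℕ) : OK (ext P K) := by
  intro t ht u hu
  simp only [ext, List.mem_append, List.mem_replicate] at ht ⊢
  rcases ht with ht | ⟨_, rfl⟩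
  · have := hP t ht u hu
    omega
  · simp only [List.mem_singleton] at hu
    omega

theorem nel_ext (P : ℕ × List (List ℕ)) (K : ℕ) : nel (ext P K) = P.1 + 1 + P.2.length + K := by
  simp only [nel, ext, List.length_append, List.length_replicate]
  omega

theorem rq_ext_low {P : ℕ × List (List ℕ)} {K x u : ℕ} (hx : x ≤ P.1) : ¬ Rq (ext P K) x u := by
  unfold Rq reqs ext
  simp only
  rw [List.getD_append _ _ _ _ (by simp; omega), List.getD_replicate _ (by omega)]
  simp

theorem rq_ext_mid {P : ℕ × List (List ℕ)} {K i u : ℕ} (hi : i < P.2.length) :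
    Rq (ext P K) (P.1 + 1 + i) u ↔ u ∈ P.2.getD i [] := by
  unfold Rq reqs ext
  simp only
  rw [List.getD_append_right _ _ _ _ (by simp), List.length_replicate,
    show P.1 + 1 + i - (P.1 + 1) = i by omega, List.getD_append _ _ _ _ hi]

theorem rq_ext_high {P : ℕ × List (List ℕ)} {K k u : ℕ} (hk : k < K) :
    Rq (ext P K) (P.1 + 1 + P.2.length + k) u ↔ u = P.1 := by
  unfold Rq reqs ext
  simp only
  rw [List.getD_append_right _ _ _ _ (by simp; omega), List.length_replicate,
    List.getD_append_right _ _ _ _ (by omega), List.getD_replicate _ (by omega)]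
  simp

theorem two_pow_le_card {P : ℕ × List (List ℕ)} (K : ℕ) :
    2 ^ K ≤ (downs (ext P K)).card := by
  classical
  rw [← Finset.card_range K, ← Finset.card_powerset, Finset.card_range]
  refine Finset.card_le_card_of_injOn
    (fun E => insert P.1 (E.image fun k => P.1 + 1 + P.2.length + k)) ?_ ?_
  · intro E hE
    have hE := Finset.mem_powerset.1 hE
    rw [Finset.mem_coe, mem_downs]
    constructor
    · intro x hx
      rw [Finset.mem_insert, Finset.mem_image] at hx
      rw [Finset.mem_range, nel_ext]
      rcases hx with rfl | ⟨k, hk, rfl⟩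
      · omega
      · have := Finset.mem_range.1 (hE hk)
        omega
    · intro x hx u hu
      rw [Finset.mem_insert, Finset.mem_image] at hx
      rcases hx with rfl | ⟨k, hk, rfl⟩
      · exact absurd hu (rq_ext_low le_rfl)
      · rw [rq_ext_high (Finset.mem_range.1 (hE hk))] at hu
        rw [hu]
        exact Finset.mem_insert_self _ _
  · intro E hE E' hE' h
    simp only at h
    have hkey : ∀ E : Finset ℕ, ∀ k, k ∈ E ↔ P.1 + 1 + P.2.length + k ∈
        insert P.1 (E.image fun k => P.1 + 1 + P.2.length + k) := by
      intro E k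
      rw [Finset.mem_insert, Finset.mem_image]
      constructor
      · intro hk
        exact Or.inr ⟨k, hk, rfl⟩
      · rintro (h | ⟨k', hk', h⟩)
        · omega
        · have : k' = k := by omega
          exact this ▸ hk'
    ext k
    rw [hkey E k, h, ← hkey E' k]

theorem countP_eq_card (l : List (List ℕ)) (p : List ℕ → Prop) [DecidablePred p] :
    l.countP (fun t => decide (p t)) =
      ((Finset.range l.length).filter fun i => p (l.getD i [])).card := by
  induction l with
  | nil => simp
  | cons a l ih =>
    rw [List.countP_cons, ih, List.length_cons, Finset.range_add_one', Finset.filter_insert,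
      Finset.filter_map]
    by_cases ha : p a
    · rw [if_pos (by simpa using ha), if_pos (by simpa using ha), Finset.card_insert_of_notMem,
        Finset.card_map]
      · congr 1
      · simp
    · rw [if_neg (by simpa using ha), if_neg (by simpa using ha), Finset.card_map]
      congr 1

theorem cw_ext {P : ℕ × List (List ℕ)} (hP : OK P) (K : ℕ) : cw (ext P K) P.1 = cnt P := by
  classical
  unfold cw cnt
  rw [Finset.card_eq_sum_card_fiberwise (f := fun S => S.filter (· < P.1))
    (t := (Finset.range P.1).powerset)]
  · refine Finset.sum_congr rfl fun D hD => ?_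
    have hD := Finset.mem_powerset.1 hD
    have hDlt : ∀ d ∈ D, d < P.1 := fun d hd => Finset.mem_range.1 (hD hd)
    rw [countP_eq_card P.2 (fun t => ∀ u ∈ t, u ∈ D), ← Finset.card_powerset]
    symm
    refine Finset.card_bij (fun E _ => D ∪ E.image fun i => P.1 + 1 + i) ?_ ?_ ?_
    · intro E hE
      rw [Finset.mem_powerset] at hE
      have hE' : ∀ i ∈ E, i < P.2.length ∧ ∀ u ∈ P.2.getD i [], u ∈ D := fun i hi => by
        have := Finset.mem_filter.1 (hE hi)
        exact ⟨Finset.mem_range.1 this.1, this.2⟩
      rw [Finset.mem_filter, Finset.mem_filter, mem_downs]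
      refine ⟨⟨⟨?_, ?_⟩, ?_⟩, ?_⟩
      · intro x hx
        rw [Finset.mem_union, Finset.mem_image] at hx
        rw [Finset.mem_range, nel_ext]
        rcases hx with hx | ⟨i, hi, rfl⟩
        · have := hDlt x hx
          omega
        · have := (hE' i hi).1
          omega
      · intro x hx u hu
        rw [Finset.mem_union, Finset.mem_image] at hx
        rcases hx with hx | ⟨i, hi, rfl⟩
        · have := hDlt x hx
          exact absurd hu (rq_ext_low (by omega))
        · rw [rq_ext_mid (hE' i hi).1] at hu
          exact Finset.mem_union_left _ ((hE' i hi).2 u hu)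
      · rw [Finset.mem_union, Finset.mem_image, not_or]
        constructor
        · intro h
          have := hDlt _ h
          omega
        · rintro ⟨i, _, h⟩
          omega
      · ext x
        rw [Finset.mem_filter, Finset.mem_union, Finset.mem_image]
        constructor
        · rintro ⟨h | ⟨i, _, rfl⟩, h2⟩
          · exact h
          · omega
        · intro h
          exact ⟨Or.inl h, hDlt x h⟩
    · intro E _ E' _ h
      have hkey : ∀ E : Finset ℕ, ∀ i, i ∈ E ↔ P.1 + 1 + i ∈
          D ∪ E.image fun i => P.1 + 1 + i := by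
        intro E i
        rw [Finset.mem_union, Finset.mem_image]
        constructor
        · intro hi
          exact Or.inr ⟨i, hi, rfl⟩
        · rintro (h | ⟨k', hk', h⟩)
          · have := hDlt _ h
            omega
          · have : k' = i := by omega
            exact this ▸ hk'
      ext i
      rw [hkey E i, h, ← hkey E' i]
    · intro S hS
      rw [Finset.mem_filter, Finset.mem_filter, mem_downs] at hS
      obtain ⟨⟨⟨h1, h2⟩, h3⟩, h4⟩ := hS
      have hmemD : ∀ x, x ∈ D ↔ x ∈ S ∧ x < P.1 := fun x => by
        rw [← h4, Finset.mem_filter]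
      refine ⟨(Finset.range P.2.length).filter fun i => P.1 + 1 + i ∈ S, ?_, ?_⟩
      · rw [Finset.mem_powerset]
        intro i hi
        rw [Finset.mem_filter] at hi ⊢
        refine ⟨hi.1, fun u hu => ?_⟩
        have hi1 := Finset.mem_range.1 hi.1
        rw [hmemD]
        refine ⟨h2 _ hi.2 u ((rq_ext_mid hi1).2 hu), ?_⟩
        rw [List.getD_eq_getElem _ _ hi1] at hu
        exact hP _ (List.getElem_mem _) u hu
      · ext x
        rw [Finset.mem_union, Finset.mem_image, hmemD]
        constructor
        · rintro (h | ⟨i, hi, rfl⟩)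
          · exact h.1
          · exact (Finset.mem_filter.1 hi).2
        · intro hx
          have hx1 := h1 hx
          rw [Finset.mem_range, nel_ext] at hx1
          rcases lt_trichotomy x P.1 with h | h | h
          · exact Or.inl ⟨hx, h⟩
          · subst h
            exact absurd hx h3
          · right
            refine ⟨x - (P.1 + 1), ?_, by omega⟩
            rw [Finset.mem_filter, Finset.mem_range, show P.1 + 1 + (x - (P.1 + 1)) = x by omega]
            refine ⟨?_, hx⟩
            by_contra hcon
            apply h3
            refine h2 x hx P.1 ?_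
            have : x = P.1 + 1 + P.2.length + (x - (P.1 + 1 + P.2.length)) := by omega
            rw [this, rq_ext_high (by omega)]
  · intro S _
    rw [Finset.mem_coe, Finset.mem_powerset]
    intro x hx
    exact Finset.mem_range.2 (Finset.mem_filter.1 hx).2

theorem cnt_pos (P : ℕ × List (List ℕ)) : 0 < cnt P := by
  unfold cnt
  refine Finset.sum_pos (fun _ _ => by positivity) ⟨∅, ?_⟩
  simp

theorem cnt_le (P : ℕ × List (List ℕ)) : cnt P ≤ 2 ^ (P.1 + P.2.length) := by
  unfold cnt
  calc ∑ D ∈ (Finset.range P.1).powerset, 2 ^ (P.2.countP fun t => decide (∀ u ∈ t, u ∈ D))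
      ≤ ∑ D ∈ (Finset.range P.1).powerset, 2 ^ P.2.length :=
        Finset.sum_le_sum fun D _ => Nat.pow_le_pow_right (by norm_num) List.countP_le_length
    _ = 2 ^ (P.1 + P.2.length) := by
        rw [Finset.sum_const, Finset.card_powerset, Finset.card_range, smul_eq_mul, pow_add]

/-- The main property of the instance: for `1 ≤ j ≤ 2 ^ K`, the `j`-th generalised median exists,
it is stable and it matches man `2b` with woman `2b` iff `j` is at most the number of down-sets. -/
theorem alpha_ext {P : ℕ × List (List ℕ)} (hP : OK P) {K j : ℕ} (h1 : 1 ≤ j) (h2 : j ≤ 2 ^ K) :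
    Input (build (ext P K), alpha (build (ext P K)) j, j) ∧
      ((alpha (build (ext P K)) j).getD (2 * P.1) 0 = 2 * P.1 ↔ j ≤ cnt P) := by
  have hs : j ≤ (stables (build (ext P K))).card := by
    rw [card_stables_build (ext_ok hP K)]
    exact h2.trans (two_pow_le_card K)
  obtain ⟨h3, h4⟩ := alpha_build (ext_ok hP K) h1 hs
  refine ⟨⟨build_valid (ext_ok hP K), h3, h1, hs⟩, ?_⟩
  rw [h4, matchOf_getD (by rw [nel_ext]; omega)]
  unfold sw
  rw [show 2 * P.1 / 2 = P.1 by omega, if_pos (show 2 * P.1 % 2 = 0 by omega)]
  have hmem : P.1 ∈ (Finset.range (nel (ext P K))).filter (fun x => cw (ext P K) x < j) ↔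
      cnt P < j := by
    rw [Finset.mem_filter, Finset.mem_range, cw_ext hP, nel_ext]
    exact ⟨fun h => h.2, fun h => ⟨by omega, h⟩⟩
  by_cases h : cnt P < j
  · rw [if_pos (hmem.2 h)]
    omega
  · rw [if_neg (fun h' => h (hmem.1 h'))]
    omega

end Pool.Agent.NPC.Med
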