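import Mathlib

/-!
# The stable marriage problem and generalised median stable matchings
-/

namespace Pool.Agent.NPC.Med

/-- An instance of the stable marriage problem: the preference lists of the men and the preference
lists of the women, most preferred person first.  The men are `0, …, n - 1` and so are the women. -/
abbrev Inst := List (List ℕ) × List (List ℕ)

/-- `I` is an instance of size `n = I.1.length`: there are `n` men and `n` women and each person
ranks all members of the opposite sex in a strict order. -/
def Valid (I : Inst) : Prop :=
  I.2.length = I.1.length ∧ (∀ l ∈ I.1, l.Perm (List.range I.1.length)) ∧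
    (∀ l ∈ I.2, l.Perm (List.range I.1.length))

/-- The position of woman `w` in the list of man `m` (smaller is better). -/
def rankM (I : Inst) (m w : ℕ) : ℕ := (I.1.getD m []).idxOf w

/-- The position of man `m` in the list of woman `w` (smaller is better). -/
def rankW (I : Inst) (w m : ℕ) : ℕ := (I.2.getD w []).idxOf m

/-- A perfect matching is given by the list `M` of the partners of the men `0, …, n - 1`, a
permutation of `0, …, n - 1`; the partner of woman `w` is the position of `w` in `M`.  It is stable
if no man `m` and woman `w` prefer each other to their partners. -/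
def Stable (I : Inst) (M : List ℕ) : Prop :=
  M.Perm (List.range I.1.length) ∧ ∀ m < I.1.length, ∀ w < I.1.length,
    ¬ (rankM I m w < rankM I m (M.getD m 0) ∧ rankW I w m < rankW I w (M.idxOf w))

instance (I : Inst) (M : List ℕ) : Decidable (Stable I M) := by
  unfold Stable; infer_instance

/-- The set of the stable matchings. -/
def stables (I : Inst) : Finset (List ℕ) :=
  (List.range I.1.length).permutations.toFinset.filter (Stable I)

/-- The list of the positions, in the list of man `m`, of his partners in all the stable
matchings, with multiplicity, in increasing order (that is, from the most preferred partner to the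
least preferred one). -/
def ranks (I : Inst) (m : ℕ) : List ℕ :=
  ((stables I).val.map fun M => rankM I m (M.getD m 0)).sort (· ≤ ·)

/-- The `j`-th generalised median stable matching `α_j` (for `1 ≤ j ≤ s`, with `s` the number of
stable matchings): each man gets the `j`-th best of his `s` partners in the stable matchings. -/
def alpha (I : Inst) (j : ℕ) : List ℕ :=
  (List.range I.1.length).map fun m => (I.1.getD m []).getD ((ranks I m).getD (j - 1) 0) 0

/-- The inputs of the decision problem: an instance, a stable matching and `1 ≤ j ≤ s`. -/
def Input (x : Inst × List ℕ × ℕ) : Prop :=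
  Valid x.1 ∧ Stable x.1 x.2.1 ∧ 1 ≤ x.2.2 ∧ x.2.2 ≤ (stables x.1).card

/-- The question: is `M = α_j`? -/
def IsMedian (x : Inst × List ℕ × ℕ) : Prop := x.2.1 = alpha x.1 x.2.2

/-! ### Sorted lists -/

theorem mem_stables {I : Inst} {M : List ℕ} : M ∈ stables I ↔ Stable I M := by
  unfold stables
  rw [Finset.mem_filter, List.mem_toFinset, List.mem_permutations]
  exact ⟨fun h => h.2, fun h => ⟨h.1, h⟩⟩

theorem sorted_getD_le : ∀ {l : List ℕ}, l.Pairwise (· ≤ ·) → ∀ {i : ℕ}, i < l.length → ∀ r,
    l.getD i 0 ≤ r ↔ i < l.countP (fun x => decide (x ≤ r)) := by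
  intro l
  induction l with
  | nil => intro _ i hi; simp at hi
  | cons a l ih =>
    intro hl i hi r
    rw [List.pairwise_cons] at hl
    rw [List.countP_cons]
    by_cases ha : a ≤ r
    · rw [if_pos (by simpa using ha)]
      cases i with
      | zero => simp [ha]
      | succ i =>
        rw [List.getD_cons_succ, ih hl.2 (by simpa using hi)]
        omega
    · rw [if_neg (by simpa using ha)]
      have h0 : l.countP (fun x => decide (x ≤ r)) = 0 := by
        rw [List.countP_eq_zero]
        intro x hx
        have := hl.1 x hx
        simp only [decide_eq_true_eq]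
        omega
      rw [h0]
      cases i with
      | zero => simp; omega
      | succ i =>
        rw [List.getD_cons_succ]
        have hi' : i < l.length := by simpa using hi
        have := hl.1 (l.getD i 0) (by rw [List.getD_eq_getElem _ _ hi']; exact List.getElem_mem _)
        omega

/-- the number of the stable matchings in which man `m` has a partner in position at most `r` -/
def cle (I : Inst) (m r : ℕ) : ℕ :=
  ((stables I).filter fun M => rankM I m (M.getD m 0) ≤ r).card

theorem ranks_length (I : Inst) (m : ℕ) : (ranks I m).length = (stables I).card := by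
  unfold ranks
  rw [Multiset.length_sort, Multiset.card_map]
  rfl

theorem ranks_getD_le {I : Inst} {m i : ℕ} (hi : i < (stables I).card) (r : ℕ) :
    (ranks I m).getD i 0 ≤ r ↔ i < cle I m r := by
  rw [sorted_getD_le (l := ranks I m) (Multiset.pairwise_sort _ _)
    (by rw [ranks_length]; exact hi)]
  have h : (ranks I m).countP (fun x => decide (x ≤ r)) = cle I m r := by
    unfold ranks cle
    rw [← Multiset.coe_countP, Multiset.sort_eq]
    rw [Multiset.countP_map]
    rw [← Finset.filter_val]
    rfl
  rw [h]

/-- the `i`-th rank is `r` -/
theorem ranks_getD_eq {I : Inst} {m i : ℕ} (hi : i < (stables I).card) (r : ℕ) :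
    (ranks I m).getD i 0 = r ↔ i < cle I m r ∧ ¬ (0 < r ∧ i < cle I m (r - 1)) := by
  have h1 := ranks_getD_le (m := m) hi r
  have h2 := ranks_getD_le (m := m) hi (r - 1)
  rw [← h1, ← h2]
  omega

theorem getD_idxOf {l : List ℕ} {w : ℕ} (h : w ∈ l) : l.getD (l.idxOf w) 0 = w := by
  rw [List.getD_eq_getElem _ _ (List.idxOf_lt_length_iff.2 h), List.getElem_idxOf]

theorem idxOf_getD {l : List ℕ} (hl : l.Nodup) {r : ℕ} (h : r < l.length) :
    l.idxOf (l.getD r 0) = r := by
  rw [List.getD_eq_getElem _ _ h]
  exact List.Nodup.idxOf_getElem hl r h

theorem Valid.man {I : Inst} (h : Valid I) {m : ℕ} (hm : m < I.1.length) :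
    (I.1.getD m []).Perm (List.range I.1.length) := by
  rw [List.getD_eq_getElem _ _ hm]
  exact h.2.1 _ (List.getElem_mem _)

theorem Stable.getD_lt {I : Inst} {M : List ℕ} (h : M.Perm (List.range I.1.length)) {m : ℕ}
    (hm : m < I.1.length) : M.getD m 0 < I.1.length := by
  have hl : M.length = I.1.length := by rw [h.length_eq, List.length_range]
  rw [List.getD_eq_getElem _ _ (by omega)]
  exact List.mem_range.1 (h.mem_iff.1 (List.getElem_mem _))

theorem cle_self (I : Inst) (m r : ℕ) : cle I m r ≤ (stables I).card :=
  Finset.card_filter_le _ _

/-- `α_j` in terms of counting -/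
theorem eq_alpha_iff {I : Inst} (hI : Valid I) {M : List ℕ} (hM : M.Perm (List.range I.1.length))
    {j : ℕ} (h1 : 1 ≤ j) (h2 : j ≤ (stables I).card) :
    M = alpha I j ↔ ∀ m < I.1.length, j ≤ cle I m (rankM I m (M.getD m 0)) ∧
      ¬ (0 < rankM I m (M.getD m 0) ∧ j ≤ cle I m (rankM I m (M.getD m 0) - 1)) := by
  have hl : M.length = I.1.length := by rw [hM.length_eq, List.length_range]
  have hkey : ∀ m < I.1.length, (M.getD m 0 = (alpha I j).getD m 0 ↔
      j ≤ cle I m (rankM I m (M.getD m 0)) ∧
      ¬ (0 < rankM I m (M.getD m 0) ∧ j ≤ cle I m (rankM I m (M.getD m 0) - 1))) := by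
    intro m hm
    have hj : j - 1 < (stables I).card := by omega
    have hp := hI.man hm
    have hlt := Stable.getD_lt hM hm
    have hmem : M.getD m 0 ∈ I.1.getD m [] := hp.mem_iff.2 (List.mem_range.2 hlt)
    have hnd : (I.1.getD m []).Nodup := hp.nodup_iff.2 List.nodup_range
    have hr : (ranks I m).getD (j - 1) 0 < (I.1.getD m []).length := by
      rw [hp.length_eq, List.length_range]
      have : (ranks I m).getD (j - 1) 0 ≤ I.1.length - 1 := by
        rw [ranks_getD_le hj]
        have : cle I m (I.1.length - 1) = (stables I).card := by
          unfold cle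
          rw [Finset.filter_true_of_mem]
          intro M' hM'
          have hM' := mem_stables.1 hM'
          have h3 := Stable.getD_lt hM'.1 hm
          have h4 : rankM I m (M'.getD m 0) < (I.1.getD m []).length :=
            List.idxOf_lt_length_iff.2 (hp.mem_iff.2 (List.mem_range.2 h3))
          rw [hp.length_eq, List.length_range] at h4
          omega
        omega
      omega
    have h5 : (alpha I j).getD m 0 = (I.1.getD m []).getD ((ranks I m).getD (j - 1) 0) 0 := by
      unfold alpha
      rw [List.getD_eq_getElem _ _ (by simpa using hm)]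
      simp
    rw [h5]
    have h6 : (M.getD m 0 = (I.1.getD m []).getD ((ranks I m).getD (j - 1) 0) 0) ↔
        (ranks I m).getD (j - 1) 0 = rankM I m (M.getD m 0) := by
      constructor
      · intro h
        rw [rankM, h, idxOf_getD hnd hr]
      · intro h
        rw [h, rankM, getD_idxOf hmem]
    rw [h6, ranks_getD_eq hj]
    constructor
    · rintro ⟨a, b⟩
      exact ⟨by omega, fun c => b ⟨c.1, by omega⟩⟩
    · rintro ⟨a, b⟩
      exact ⟨by omega, fun c => b ⟨c.1, by omega⟩⟩
  constructor
  · intro h m hm
    rw [← hkey m hm, ← h]
  · intro h
    have hla : (alpha I j).length = I.1.length := by simp [alpha]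
    apply List.ext_getElem (by rw [hl, hla])
    intro m h3 h4
    have := (hkey m (by omega)).2 (h m (by omega))
    rwa [List.getD_eq_getElem _ _ h3, List.getD_eq_getElem _ _ h4] at this

end Pool.Agent.NPC.Med
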