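import Pool.Agent.H578R2.Med.PolyB

/-!
# If the problem is in NP then the graph of every #P function is in NP
-/

namespace Pool.Agent.NPC.Med

/-- The number of satisfying assignments of a formula is computed from the number of down-sets of
a poset of height 2. -/
def CntHard : Prop :=
  ∃ (Q : Cnt.CNF ℕ → ℕ × List (List ℕ)) (post : Cnt.CNF ℕ × ℕ → ℕ), Poly Q ∧
    UPoly (fun φ => (Q φ).1) ∧ Poly post ∧ (∀ φ, ∀ t ∈ (Q φ).2, ∀ u ∈ t, u < (Q φ).1) ∧
    ∀ φ, Cnt.satCount φ = post (φ, cnt (Q φ))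

theorem sz_matching_le {I : Inst} {M : List ℕ} (h : M.Perm (List.range I.1.length)) :
    sz M ≤ (Polynomial.C 5 * Polynomial.X * Polynomial.X + Polynomial.C 5 : Polynomial ℕ).eval
      (sz I) := by
  have hlen : M.length = I.1.length := by rw [h.length_eq, List.length_range]
  have h1 : I.1.length < sz I.1 := length_lt_sz _
  have h2 : sz I = sz I.1 + sz I.2 + 1 := by
    conv_lhs => rw [← Prod.mk.eta (p := I)]
    rw [sz_pair]
  have hb : ∀ a ∈ M, sz a ≤ 4 * sz I := by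
    intro a ha
    have ha' := List.mem_range.1 (h.mem_iff.1 ha)
    have h3 := sz_nat_le a
    have h4 : a.size ≤ a := by
      rw [Nat.size_le]
      exact Nat.lt_two_pow_self
    omega
  have h5 := sz_le_length_mul M (4 * sz I) hb
  simp only [Polynomial.eval_add, Polynomial.eval_mul, Polynomial.eval_C, Polynomial.eval_X]
  have h6 : M.length * (4 * sz I + 1) ≤ sz I * (4 * sz I + 1) :=
    Nat.mul_le_mul_right _ (by omega)
  have h7 := sz_pos I
  nlinarith

theorem graph_inNP (hC : CntHard) {A : Set (List Bool)} (hA : InNP A)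
    (hag : ∀ x : Inst × List ℕ × ℕ, Input x → (bits x ∈ A ↔ IsMedian x)) {f : List Bool → ℕ}
    (hf : Cnt.SharpP f) : InNPP (fun p : List Bool × ℕ => f p.1 = p.2) := by
  obtain ⟨Q, post, hQ, hQ1, hpost, hQok, hsat⟩ := hC
  obtain ⟨V, q, hV, hVf⟩ := hf
  obtain ⟨G, hG, hGf⟩ := Cnt.parsimonious hV q
  have hG' : Poly G := PC.comp (g := G) (f := fun x => x) hG Cnt.pc_raw
  -- the instance
  set K : List Bool → ℕ := fun x => (Q (G x)).1 + (Q (G x)).2.length + 1 with hKdef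
  have hQG : Poly (fun x => Q (G x)) := hQ.comp hG'
  have hQG1 : UPoly (fun x => (Q (G x)).1) := hQ1.comp hG'
  have hK : UPoly K := UPoly.add (UPoly.add hQG1 (UPoly.length (Poly.snd hQG))) (UPoly.const 1)
  set J : List Bool → Inst := fun x => build (ext (Q (G x)) (K x)) with hJdef
  have hJ : Poly J := poly_build (poly_ext hQG hQG1 hK).1 (poly_ext hQG hQG1 hK).2
  have hOK : ∀ x, OK (Q (G x)) := fun x => hQok _
  have hcntlt : ∀ x, cnt (Q (G x)) < 2 ^ K x := by
    intro x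
    refine lt_of_le_of_lt (cnt_le _) ?_
    exact Nat.pow_lt_pow_right (by norm_num) (by simp [hKdef])
  -- the predicate
  let Good : (List Bool × ℕ) × (ℕ × List ℕ × List ℕ) → Prop := fun y =>
    (decide (1 ≤ y.2.1) && decide (y.2.1.bits.length ≤ K y.1.1) &&
      stableT (J y.1.1) y.2.2.1 && stableT (J y.1.1) y.2.2.2 &&
      decide (y.2.2.1.getD (2 * (Q (G y.1.1)).1) 0 = 2 * (Q (G y.1.1)).1) &&
      !decide (y.2.2.2.getD (2 * (Q (G y.1.1)).1) 0 = 2 * (Q (G y.1.1)).1) &&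
      decide (post (G y.1.1, y.2.1) = y.1.2)) = true ∧
    bits (J y.1.1, y.2.2.1, y.2.1) ∈ A ∧ bits (J y.1.1, y.2.2.2, y.2.1 + 1) ∈ A
  have hx : Poly (fun y : (List Bool × ℕ) × (ℕ × List ℕ × List ℕ) => y.1.1) := by fun_prop
  have hJ' : Poly (fun y : (List Bool × ℕ) × (ℕ × List ℕ × List ℕ) => J y.1.1) := hJ.comp hx
  have hG'' : Poly (fun y : (List Bool × ℕ) × (ℕ × List ℕ × List ℕ) => G y.1.1) := hG'.comp hx
  have hK' : Poly (fun y : (List Bool × ℕ) × (ℕ × List ℕ × List ℕ) => K y.1.1) :=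
    hK.toPoly.comp hx
  have hQ' : Poly (fun y : (List Bool × ℕ) × (ℕ × List ℕ × List ℕ) => Q (G y.1.1)) :=
    hQG.comp hx
  have hbits : Poly (fun y : (List Bool × ℕ) × (ℕ × List ℕ × List ℕ) => y.2.1.bits) :=
    Poly.natBits (by fun_prop)
  have hpost' : Poly (fun y : (List Bool × ℕ) × (ℕ × List ℕ × List ℕ) =>
      post (G y.1.1, y.2.1)) := hpost.comp (Poly.pair hG'' (by fun_prop))
  have hGood : InNPP Good := by
    refine InNPP.and (inNPP_of_test (d := fun y => _) ?_ fun y => Iff.rfl) (InNPP.and ?_ ?_)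
    · fun_prop
    · exact InNPP.comp (Q := fun z : Inst × List ℕ × ℕ => bits z ∈ A)
        (f := fun y : (List Bool × ℕ) × (ℕ × List ℕ × List ℕ) =>
          (J y.1.1, y.2.2.1, y.2.1)) (inNPP_typed hA) (by fun_prop)
    · exact InNPP.comp (Q := fun z : Inst × List ℕ × ℕ => bits z ∈ A)
        (f := fun y : (List Bool × ℕ) × (ℕ × List ℕ × List ℕ) =>
          (J y.1.1, y.2.2.2, y.2.1 + 1)) (inNPP_typed hA) (by fun_prop)
  -- meaning
  have hiff : ∀ (x : List Bool) (v N : ℕ) (M₁ M₂ : List ℕ), Good ((x, v), (N, M₁, M₂)) ↔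
      1 ≤ N ∧ N < 2 ^ K x ∧ Stable (J x) M₁ ∧ Stable (J x) M₂ ∧
      M₁.getD (2 * (Q (G x)).1) 0 = 2 * (Q (G x)).1 ∧
      ¬ M₂.getD (2 * (Q (G x)).1) 0 = 2 * (Q (G x)).1 ∧ post (G x, N) = v ∧
      bits (J x, M₁, N) ∈ A ∧ bits (J x, M₂, N + 1) ∈ A := by
    intro x v N M₁ M₂
    have hs : N.bits.length ≤ K x ↔ N < 2 ^ K x := by
      rw [Nat.size_eq_bits_len, Nat.size_le]
    simp only [Good, Bool.and_eq_true, decide_eq_true_eq, Bool.not_eq_true',
      decide_eq_false_iff_not, stableT_iff, hs]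
    tauto
  have hmain : ∀ (x : List Bool) (v : ℕ), (∃ c, Good ((x, v), c)) ↔ f x = v := by
    intro x v
    have hval : post (G x, cnt (Q (G x))) = f x := by
      rw [hVf x, ← hGf x, ← hsat]
    constructor
    · rintro ⟨⟨N, M₁, M₂⟩, h⟩
      rw [hiff] at h
      obtain ⟨h1, h2, h3, h4, h5, h6, h7, h8, h9⟩ := h
      obtain ⟨⟨i1, i2, i3, i4⟩, e1⟩ := alpha_ext (hOK x) (K := K x) (j := N) h1 h2.le
      obtain ⟨⟨j1, j2, j3, j4⟩, e2⟩ := alpha_ext (hOK x) (K := K x) (j := N + 1) (by omega) h2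
      have m1 : M₁ = alpha (J x) N := (hag (J x, M₁, N) ⟨i1, h3, i3, i4⟩).1 h8
      have m2 : M₂ = alpha (J x) (N + 1) := (hag (J x, M₂, N + 1) ⟨j1, h4, j3, j4⟩).1 h9
      rw [m1] at h5
      rw [m2] at h6
      have k1 := e1.1 h5
      have k2 : ¬ N + 1 ≤ cnt (Q (G x)) := fun hh => h6 (e2.2 hh)
      have : N = cnt (Q (G x)) := by omega
      rw [← h7, this, hval]
    · rintro rfl
      have hpos := cnt_pos (Q (G x))
      obtain ⟨⟨i1, i2, i3, i4⟩, e1⟩ := alpha_ext (hOK x) (K := K x) (j := cnt (Q (G x)))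
        hpos (hcntlt x).le
      obtain ⟨⟨j1, j2, j3, j4⟩, e2⟩ := alpha_ext (hOK x) (K := K x) (j := cnt (Q (G x)) + 1)
        (by omega) (hcntlt x)
      refine ⟨(cnt (Q (G x)), alpha (J x) (cnt (Q (G x))), alpha (J x) (cnt (Q (G x)) + 1)), ?_⟩
      rw [hiff]
      refine ⟨hpos, hcntlt x, i2, j2, e1.2 le_rfl, fun hh => ?_, hval, ?_, ?_⟩
      · have := e2.1 hh
        omega
      · exact (hag _ ⟨i1, i2, i3, i4⟩).2 rfl
      · exact (hag _ ⟨j1, j2, j3, j4⟩).2 rfl
  obtain ⟨cJ, hcJ⟩ := hJ.sz_le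
  obtain ⟨cK, hcK⟩ := (hK : Poly (fun x => List.replicate (K x) ())).sz_le
  have hres : InNPP (fun a : List Bool × ℕ => ∃ c, Good (a, c)) := by
    refine InNPP.exists hGood (Polynomial.C 4 * cK + Polynomial.C 3 +
      Polynomial.C 2 * (Polynomial.C 5 * Polynomial.X * Polynomial.X + Polynomial.C 5).comp cJ)
      ?_
    rintro ⟨x, v⟩ ⟨N, M₁, M₂⟩ h
    refine ⟨(N, M₁, M₂), ?_, h⟩
    rw [hiff] at h
    obtain ⟨h1, h2, h3, h4, -⟩ := h
    have s1 := sz_matching_le h3.1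
    have s2 := sz_matching_le h4.1
    have s3 := sz_nat_le N
    have s4 : N.size ≤ K x := Nat.size_le.2 h2
    have s5 : K x < sz (List.replicate (K x) ()) := by
      have := length_lt_sz (List.replicate (K x) ())
      simpa using this
    have s6 := hcK x
    have s7 := hcJ x
    have s8 : sz x ≤ sz (x, v) := by rw [sz_pair]; omega
    have s9 := eval_mono cK s8
    have s10 := eval_mono cJ s8
    have s11 := eval_mono (Polynomial.C 5 * Polynomial.X * Polynomial.X + Polynomial.C 5)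
      (s7.trans s10)
    rw [sz_pair, sz_pair]
    simp only [Polynomial.eval_add, Polynomial.eval_mul, Polynomial.eval_C, Polynomial.eval_comp,
      Polynomial.eval_X] at s1 s2 s11 ⊢
    change sz M₁ ≤ 5 * sz (J x) * sz (J x) + 5 at s1
    change sz M₂ ≤ 5 * sz (J x) * sz (J x) + 5 at s2
    omega
  have he : (fun a : List Bool × ℕ => ∃ c, Good (a, c)) = fun p : List Bool × ℕ => f p.1 = p.2 := by
    funext a
    exact propext (hmain a.1 a.2)
  rwa [he] at hres

end Pool.Agent.NPC.Med
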