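import Pool.Agent.H578R2.Med.NPClos
import Pool.Agent.H578R2.Med.Count

/-!
# Polynomial-time computability of the constructions
-/

namespace Pool.Agent.NPC.Med

variable {α β : Type} [TEnc α] [TEnc β]

theorem idxOf_eq_aux {β : Type} [DecidableEq β] (b : β) : ∀ (l : List β) (k : ℕ),
    (((l.zipIdx k).filter fun p => decide (p.1 = b)).map Prod.snd).head?.getD (k + l.length) =
      k + l.idxOf b
  | [], k => by simp
  | a :: l, k => by
    have ih := idxOf_eq_aux b l (k + 1)
    rw [List.zipIdx_cons, List.idxOf_cons]
    by_cases h : a = b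
    · simp [h]
    · have e : ((a, k) :: l.zipIdx (k + 1)).filter (fun p => decide (p.1 = b)) =
          (l.zipIdx (k + 1)).filter (fun p => decide (p.1 = b)) := by
        simp [h]
      rw [e, show k + (a :: l).length = k + 1 + l.length by simp; omega, ih]
      have e2 : (a == b) = false := by simpa using h
      rw [e2]
      simp only [cond_false]
      omega

theorem Poly.idxOf [DecidableEq β] {l : α → List β} {f : α → β} (hl : Poly l) (hf : Poly f) :
    Poly (fun a => (l a).idxOf (f a)) := by
  have h : Poly (fun a => ((((l a).zipIdx).filter fun p => decide (p.1 = f a)).map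
      Prod.snd).head?.getD (l a).length) := by
    fun_prop
  refine h.congr fun a => ?_
  have := idxOf_eq_aux (f a) (l a) 0
  simpa using this

attribute [fun_prop] Poly.idxOf

theorem poly_range_len {l : α → List β} (hl : Poly l) : Poly (fun a => List.range (l a).length) :=
  (UPoly.length hl).range

attribute [fun_prop] poly_range_len

/-- test for a permutation of `0, …, n - 1` -/
def isPerm (n : ℕ) (l : List ℕ) : Bool :=
  decide (l.length = n) && (List.range n).all fun x => decide (x ∈ l)

theorem isPerm_iff {n : ℕ} {l : List ℕ} : isPerm n l = true ↔ l.Perm (List.range n) := by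
  unfold isPerm
  rw [Bool.and_eq_true, decide_eq_true_eq, List.all_eq_true]
  constructor
  · rintro ⟨h1, h2⟩
    have h3 : List.Subperm (List.range n) l := by
      refine List.subperm_of_subset List.nodup_range fun x hx => ?_
      have := h2 x hx
      rwa [decide_eq_true_eq] at this
    exact (h3.perm_of_length_le (by rw [h1, List.length_range])).symm
  · intro h
    refine ⟨by rw [h.length_eq, List.length_range], fun x hx => ?_⟩
    rw [decide_eq_true_eq]
    exact h.mem_iff.2 hx

/-- test for an instance -/
def validT (I : Inst) : Bool :=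
  decide (I.2.length = I.1.length) && (I.1.all fun l => isPerm I.1.length l) &&
    I.2.all fun l => isPerm I.1.length l

theorem validT_iff {I : Inst} : validT I = true ↔ Valid I := by
  unfold validT Valid
  rw [Bool.and_eq_true, Bool.and_eq_true, decide_eq_true_eq, List.all_eq_true, List.all_eq_true,
    and_assoc]
  simp only [isPerm_iff]

/-- test for stability -/
def stableT (I : Inst) (M : List ℕ) : Bool :=
  isPerm I.1.length M && (List.range I.1.length).all fun m => (List.range I.1.length).all fun w =>
    !(decide (rankM I m w < rankM I m (M.getD m 0)) && decide (rankW I w m < rankW I w (M.idxOf w)))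

theorem stableT_iff {I : Inst} {M : List ℕ} : stableT I M = true ↔ Stable I M := by
  unfold stableT Stable
  rw [Bool.and_eq_true, isPerm_iff, List.all_eq_true]
  simp only [List.all_eq_true, List.mem_range, Bool.not_eq_true', Bool.and_eq_false_iff,
    decide_eq_false_iff_not, not_and_or]

theorem poly_rankM {I : α → Inst} {m w : α → ℕ} (hI : Poly I) (hm : Poly m) (hw : Poly w) :
    Poly (fun a => rankM (I a) (m a) (w a)) := by
  unfold rankM
  fun_prop

theorem poly_rankW {I : α → Inst} {m w : α → ℕ} (hI : Poly I) (hm : Poly m) (hw : Poly w) :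
    Poly (fun a => rankW (I a) (m a) (w a)) := by
  unfold rankW
  fun_prop

attribute [fun_prop] poly_rankM poly_rankW

theorem poly_isPerm {l : α → List β} {M : α → List ℕ} (hl : Poly l) (hM : Poly M) :
    Poly (fun a => isPerm (l a).length (M a)) := by
  unfold isPerm
  fun_prop

attribute [fun_prop] poly_isPerm

theorem poly_validT {I : α → Inst} (hI : Poly I) : Poly (fun a => validT (I a)) := by
  unfold validT
  fun_prop

theorem poly_stableT {I : α → Inst} {M : α → List ℕ} (hI : Poly I) (hM : Poly M) :
    Poly (fun a => stableT (I a) (M a)) := by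
  unfold stableT
  fun_prop

attribute [fun_prop] poly_validT poly_stableT

section

variable {P : α → ℕ × List (List ℕ)} (hP : Poly P) (hb : UPoly (fun a => (P a).1))

include hP hb

theorem uPoly_nel : UPoly (fun a => nel (P a)) :=
  UPoly.add hb (UPoly.length (Poly.snd hP))

theorem poly_reqs : Poly (fun a => reqs (P a)) :=
  Poly.append (Cnt.UPoly.replicate hb (Poly.const [])) (Poly.snd hP)

theorem poly_up {i : α → ℕ} (hi : Poly i) : Poly (fun a => up (P a) (i a)) := by
  unfold up
  have h1 : Poly (fun a => List.range (nel (P a))) := (uPoly_nel hP hb).range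
  have h2 := poly_reqs hP hb
  refine Poly.filter h1 ?_
  have h3 : Poly (fun p : α × ℕ => reqs (P p.1)) := h2.comp (Poly.fst Poly.id)
  have h4 : Poly (fun p : α × ℕ => i p.1) := hi.comp (Poly.fst Poly.id)
  fun_prop

theorem poly_dn {i : α → ℕ} (hi : Poly i) : Poly (fun a => dn (P a) (i a)) := by
  unfold dn
  have h1 : Poly (fun a => List.range (nel (P a))) := (uPoly_nel hP hb).range
  have h2 := poly_reqs hP hb
  refine Poly.filter h1 ?_
  have h3 : Poly (fun p : α × ℕ => reqs (P p.1)) := h2.comp (Poly.fst Poly.id)
  have h4 : Poly (fun p : α × ℕ => i p.1) := hi.comp (Poly.fst Poly.id)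
  fun_prop

theorem poly_keyM {i : α → ℕ} (hi : Poly i) : Poly (fun a => keyM (P a) (i a)) := by
  unfold keyM
  have h1 : Poly (fun a => up (P a) (i a / 2)) :=
    poly_up hP hb (i := fun a => i a / 2) (by fun_prop)
  fun_prop

theorem poly_keyW {i : α → ℕ} (hi : Poly i) : Poly (fun a => keyW (P a) (i a)) := by
  unfold keyW
  have h1 : Poly (fun a => dn (P a) (i a / 2)) :=
    poly_dn hP hb (i := fun a => i a / 2) (by fun_prop)
  fun_prop

omit hP hb in
theorem poly_full {n : α → ℕ} {k : α → List ℕ} (hn : UPoly n) (hk : Poly k) :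
    Poly (fun a => full (n a) (k a)) := by
  unfold full
  have h1 : Poly (fun a => List.range (n a)) := hn.range
  have h2 : Poly (fun p : α × ℕ => k p.1) := hk.comp (Poly.fst Poly.id)
  exact Poly.append hk (Poly.filter h1 (by fun_prop))

theorem poly_build : Poly (fun a => build (P a)) := by
  unfold build
  have hP' : Poly (fun p : α × ℕ => P p.1) := hP.comp (Poly.fst Poly.id)
  have hb' : UPoly (fun p : α × ℕ => (P p.1).1) := hb.comp (Poly.fst Poly.id)
  have hn : UPoly (fun a => 2 * nel (P a)) := UPoly.mul (UPoly.const 2) (uPoly_nel hP hb)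
  have hn' : UPoly (fun p : α × ℕ => 2 * nel (P p.1)) :=
    UPoly.mul (UPoly.const 2) (uPoly_nel hP' hb')
  refine Poly.pair (Poly.map hn.range ?_) (Poly.map hn.range ?_)
  · exact poly_full hn' (poly_keyM hP' hb' (Poly.snd Poly.id))
  · exact poly_full hn' (poly_keyW hP' hb' (Poly.snd Poly.id))

theorem poly_ext {k : α → ℕ} (hk : UPoly k) : Poly (fun a => ext (P a) (k a)) ∧
    UPoly (fun a => (ext (P a) (k a)).1) := by
  unfold ext
  refine ⟨Poly.pair (by fun_prop) (Poly.append (Poly.snd hP)
    (Cnt.UPoly.replicate hk (by fun_prop))), UPoly.add hb (UPoly.const 1)⟩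

end

end Pool.Agent.NPC.Med
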